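import Pool.Agent.H3.HP.Mat

/-!
# The two projections for the symmetric group
-/

set_option autoImplicit false
set_option linter.unusedSectionVars false

open Matrix Finset

open scoped Kronecker

namespace Pool.Agent.H3.HP

variable {n : ℕ}

/-- permutations with prescribed values. -/
theorem exists_perm {k : ℕ} (f f' : Fin k → Fin n) (hf : Function.Injective f)
    (hf' : Function.Injective f') : ∃ g : Equiv.Perm (Fin n), ∀ a, g (f a) = f' a := by
  have h := Equiv.Perm.isMultiplyPretransitive (Fin n) k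
  obtain ⟨g, hg⟩ := h.exists_smul_eq (⟨f, hf⟩ : Fin k ↪ Fin n) ⟨f', hf'⟩
  refine ⟨g, fun a => ?_⟩
  have := DFunLike.congr_fun hg a
  simpa using this

/-- the all-ones matrix. -/
def JJ (n : ℕ) : Matrix (Fin n) (Fin n) ℝ := Matrix.of fun _ _ => 1

theorem R_mul_JJ (g : Equiv.Perm (Fin n)) : R (Fin n) g * JJ n = JJ n := by
  ext i j
  rw [R_mul_apply]
  rfl

theorem JJ_mul_R (g : Equiv.Perm (Fin n)) : JJ n * R (Fin n) g = JJ n := by
  ext i j
  rw [mul_R_apply]
  rfl

theorem JJ_mul_JJ : JJ n * JJ n = (n : ℝ) • JJ n := by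
  ext i j
  simp [JJ, Matrix.mul_apply]

theorem JJ_transpose : (JJ n)ᵀ = JJ n := rfl

/-- the projection to vectors with sum zero. -/
noncomputable def E1 (n : ℕ) : Matrix (Fin n) (Fin n) ℝ := 1 - (n : ℝ)⁻¹ • JJ n

theorem JJ_mul_E1 (hn : 0 < n) : JJ n * E1 n = 0 := by
  have : (n : ℝ) ≠ 0 := by positivity
  rw [E1, mul_sub, mul_one, Matrix.mul_smul, JJ_mul_JJ, smul_smul, inv_mul_cancel₀ this,
    one_smul, sub_self]

theorem isProj_E1 (hn : 0 < n) : IsProj (Equiv.Perm (Fin n)) (E1 n) where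
  symm := by
    rw [E1, Matrix.transpose_sub, Matrix.transpose_smul, JJ_transpose, Matrix.transpose_one]
  idem := by
    have h : E1 n * E1 n = E1 n - (n : ℝ)⁻¹ • (JJ n * E1 n) := by
      conv_lhs => rw [E1]
      rw [sub_mul, one_mul, Matrix.smul_mul]
      rfl
    rw [h, JJ_mul_E1 hn, smul_zero, sub_zero]
  comm g := by
    rw [E1, mul_sub, sub_mul, mul_one, one_mul, Matrix.mul_smul, Matrix.smul_mul, R_mul_JJ,
      JJ_mul_R]

theorem trace_JJ : (JJ n).trace = n := by
  simp [Matrix.trace, JJ]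

theorem ch_E1 (hn : 0 < n) (g : Equiv.Perm (Fin n)) :
    ch (E1 n) g = (R (Fin n) g).trace - 1 := by
  have : (n : ℝ) ≠ 0 := by positivity
  rw [ch, E1, sub_mul, one_mul, Matrix.smul_mul, JJ_mul_R, Matrix.trace_sub, Matrix.trace_smul,
    trace_JJ, smul_eq_mul, inv_mul_cancel₀ this]

theorem trace_E1 (hn : 0 < n) : (E1 n).trace = n - 1 := by
  rw [← ch_one (G := Equiv.Perm (Fin n)), ch_E1 hn, R_one, Matrix.trace_one]
  simp

theorem entry_invariant {Y : Type} [Fintype Y] [DecidableEq Y] {G : Type} [Group G]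
    [MulAction G Y] (B : Matrix Y Y ℝ) (hB : ∀ g : G, R Y g * B = B * R Y g) (g : G) (i j : Y) :
    B (g • i) (g • j) = B i j := by
  have h := congrFun (congrFun (hB g) (g • i)) j
  rw [R_mul_apply, mul_R_apply, inv_smul_smul] at h
  exact h.symm

theorem isSchur_E1 (hn : 2 ≤ n) : IsSchur (Equiv.Perm (Fin n)) (E1 n) := by
  intro B hB
  have i0 : Fin n := ⟨0, by omega⟩
  let p : Fin n := ⟨0, by omega⟩
  let q : Fin n := ⟨1, by omega⟩
  have hpq : p ≠ q := by simp [p, q, Fin.ext_iff]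
  refine ⟨B p p - B p q, ?_⟩
  have key : B = (B p p - B p q) • (1 : Matrix (Fin n) (Fin n) ℝ) + (B p q) • JJ n := by
    ext i j
    by_cases hij : i = j
    · subst hij
      obtain ⟨g, hg⟩ := exists_perm (n := n) (k := 1) ![p] ![i]
        (Function.injective_of_subsingleton _) (Function.injective_of_subsingleton _)
      have h1 := entry_invariant B hB g p p
      have h2 : g p = i := hg 0
      simp only [Equiv.Perm.smul_def, h2] at h1
      simp [JJ, h1]
    · obtain ⟨g, hg⟩ := exists_perm (n := n) (k := 2) ![p, q] ![i, j]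
        (by
          intro a b hab
          fin_cases a <;> fin_cases b <;> simp_all [hpq.symm])
        (by
          intro a b hab
          fin_cases a <;> fin_cases b <;> simp_all [eq_comm])
      have h1 := entry_invariant B hB g p q
      have h2 : g p = i := hg 0
      have h3 : g q = j := hg 1
      simp only [Equiv.Perm.smul_def, h2, h3] at h1
      simp [JJ, h1, hij]
  conv_lhs => rw [key]
  rw [add_mul, Matrix.smul_mul, Matrix.smul_mul, one_mul, JJ_mul_E1 (by omega), smul_zero,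
    add_zero]

/-! ### two-element subsets -/

/-- two-element subsets. -/
abbrev X2 (n : ℕ) : Type := {s : Finset (Fin n) // s.card = 2}

instance : MulAction (Equiv.Perm (Fin n)) (X2 n) where
  smul g s := ⟨s.1.map g.toEmbedding, by rw [Finset.card_map, s.2]⟩
  one_smul s := by
    apply Subtype.ext
    show s.1.map (1 : Equiv.Perm (Fin n)).toEmbedding = s.1
    ext i
    rw [Finset.mem_map_equiv]
    rfl
  mul_smul g h s := by
    apply Subtype.ext
    show s.1.map (g * h).toEmbedding = (s.1.map h.toEmbedding).map g.toEmbedding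
    ext i
    rw [Finset.mem_map_equiv, Finset.mem_map_equiv, Finset.mem_map_equiv]
    rfl

theorem smul_X2_val (g : Equiv.Perm (Fin n)) (s : X2 n) :
    (g • s).1 = s.1.map g.toEmbedding := rfl

theorem mem_smul_X2 (g : Equiv.Perm (Fin n)) (s : X2 n) (i : Fin n) :
    i ∈ (g • s).1 ↔ g⁻¹ i ∈ s.1 := by
  rw [smul_X2_val, Finset.mem_map_equiv]
  rfl

/-- the incidence matrix. -/
def NN (n : ℕ) : Matrix (Fin n) (X2 n) ℝ := Matrix.of fun i s => if i ∈ s.1 then 1 else 0

theorem R_mul_NN (g : Equiv.Perm (Fin n)) : R (Fin n) g * NN n = NN n * R (X2 n) g := by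
  ext i s
  rw [R_mul_apply, mul_R_apply]
  simp only [NN, Matrix.of_apply, mem_smul_X2, Equiv.Perm.smul_def]

theorem R_mul_NNt (g : Equiv.Perm (Fin n)) : R (X2 n) g * (NN n)ᵀ = (NN n)ᵀ * R (Fin n) g := by
  have h1 := congrArg Matrix.transpose (R_mul_NN (n := n) g⁻¹)
  rw [Matrix.transpose_mul, Matrix.transpose_mul, R_transpose, R_transpose, inv_inv] at h1
  exact h1.symm

/-- the pair `{i, j}`. -/
def pr (i j : Fin n) (h : i ≠ j) : X2 n := ⟨{i, j}, Finset.card_pair h⟩

theorem eq_pr {i j : Fin n} (h : i ≠ j) (s : X2 n) (hi : i ∈ s.1) (hj : j ∈ s.1) :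
    s = pr i j h := by
  apply Subtype.ext
  symm
  show ({i, j} : Finset (Fin n)) = s.1
  apply Finset.eq_of_subset_of_card_le
  · intro k hk
    simp only [Finset.mem_insert, Finset.mem_singleton] at hk
    rcases hk with rfl | rfl
    · exact hi
    · exact hj
  · rw [s.2, Finset.card_pair h]

theorem NN_mul_NNt_ne {i j : Fin n} (h : i ≠ j) : (NN n * (NN n)ᵀ) i j = 1 := by
  rw [Matrix.mul_apply, Finset.sum_eq_single (pr i j h)]
  · simp [NN, pr]
  · intro s _ hs
    by_cases hi : i ∈ s.1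
    · by_cases hj : j ∈ s.1
      · exact absurd (eq_pr h s hi hj) hs
      · simp [NN, hj]
    · simp [NN, hi]
  · intro h'
    exact absurd (Finset.mem_univ _) h'

theorem sum_NN (s : X2 n) : ∑ i, NN n i s = 2 := by
  simp only [NN, Matrix.of_apply, Finset.sum_boole]
  have : (Finset.univ.filter (fun i => i ∈ s.1)) = s.1 := by ext; simp
  rw [this, s.2]
  norm_num

theorem NN_mul_NNt : NN n * (NN n)ᵀ = ((n : ℝ) - 2) • (1 : Matrix (Fin n) (Fin n) ℝ) + JJ n := by
  ext i j
  by_cases hij : i = j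
  · subst hij
    have h1 : ∑ j, (NN n * (NN n)ᵀ) i j = 2 * (NN n * (NN n)ᵀ) i i := by
      simp only [Matrix.mul_apply, Matrix.transpose_apply]
      rw [Finset.sum_comm, Finset.mul_sum]
      refine Finset.sum_congr rfl fun s _ => ?_
      rw [← Finset.mul_sum, sum_NN]
      simp only [NN, Matrix.of_apply]
      split_ifs <;> ring
    have h2 : ∑ j, (NN n * (NN n)ᵀ) i j = (NN n * (NN n)ᵀ) i i + ((n : ℝ) - 1) := by
      rw [← Finset.add_sum_erase _ _ (Finset.mem_univ i)]
      congr 1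
      rw [Finset.sum_congr rfl (fun j hj => NN_mul_NNt_ne (Finset.ne_of_mem_erase hj).symm)]
      rw [Finset.sum_const, Finset.card_erase_of_mem (Finset.mem_univ i), Finset.card_univ,
        Fintype.card_fin, nsmul_eq_mul, mul_one, Nat.cast_sub (by have := i.2; omega)]
      simp
    have h3 : (NN n * (NN n)ᵀ) i i = (n : ℝ) - 1 := by linarith
    rw [h3]
    simp [JJ]
    ring
  · rw [NN_mul_NNt_ne hij]
    simp [JJ, hij]

/-- the inverse of `N Nᵀ`. -/
noncomputable def CC (n : ℕ) : Matrix (Fin n) (Fin n) ℝ :=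
  ((n : ℝ) - 2)⁻¹ • (1 - (2 * (n : ℝ) - 2)⁻¹ • JJ n)

theorem NNt_CC (hn : 3 ≤ n) : NN n * (NN n)ᵀ * CC n = 1 := by
  have h3 : (3 : ℝ) ≤ n := by exact_mod_cast hn
  have h1 : ((n : ℝ) - 2) ≠ 0 := by linarith
  have h2 : ((n : ℝ) - 1) ≠ 0 := by linarith
  have h4 : (2 * (n : ℝ) - 2) = 2 * ((n : ℝ) - 1) := by ring
  rw [NN_mul_NNt, CC, h4, Matrix.mul_smul, Matrix.add_mul, Matrix.smul_mul, Matrix.one_mul,
    Matrix.mul_sub, Matrix.mul_one, Matrix.mul_smul, JJ_mul_JJ, smul_smul]
  ext i j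
  simp only [Matrix.smul_apply, Matrix.add_apply, Matrix.sub_apply, smul_eq_mul, JJ,
    Matrix.of_apply]
  field_simp
  ring

theorem CC_transpose : (CC n)ᵀ = CC n := by
  rw [CC, Matrix.transpose_smul, Matrix.transpose_sub, Matrix.transpose_smul, JJ_transpose,
    Matrix.transpose_one]

theorem R_mul_CC (g : Equiv.Perm (Fin n)) : R (Fin n) g * CC n = CC n * R (Fin n) g := by
  rw [CC, Matrix.mul_smul, Matrix.smul_mul, mul_sub, sub_mul, mul_one, one_mul,
    Matrix.mul_smul, Matrix.smul_mul, R_mul_JJ, JJ_mul_R]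

/-- the projection to functions on pairs with vanishing vertex sums. -/
noncomputable def E2 (n : ℕ) : Matrix (X2 n) (X2 n) ℝ := 1 - (NN n)ᵀ * CC n * NN n

theorem NN_mul_E2 (hn : 3 ≤ n) : NN n * E2 n = 0 := by
  rw [E2, Matrix.mul_sub, Matrix.mul_one, ← Matrix.mul_assoc, ← Matrix.mul_assoc, NNt_CC hn,
    Matrix.one_mul, sub_self]

theorem isProj_E2 (hn : 3 ≤ n) : IsProj (Equiv.Perm (Fin n)) (E2 n) where
  symm := by
    rw [E2, Matrix.transpose_sub, Matrix.transpose_mul, Matrix.transpose_mul, CC_transpose,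
      Matrix.transpose_transpose, Matrix.transpose_one, Matrix.mul_assoc]
  idem := by
    have h : E2 n * E2 n = E2 n - (NN n)ᵀ * CC n * (NN n * E2 n) := by
      conv_lhs => rw [E2]
      rw [Matrix.sub_mul, Matrix.one_mul, Matrix.mul_assoc _ (NN n)]
      rfl
    rw [h, NN_mul_E2 hn, Matrix.mul_zero, sub_zero]
  comm g := by
    rw [E2, Matrix.mul_sub, Matrix.sub_mul, Matrix.mul_one, Matrix.one_mul]
    congr 1
    rw [← Matrix.mul_assoc, ← Matrix.mul_assoc, R_mul_NNt, Matrix.mul_assoc (NN n)ᵀ, R_mul_CC,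
      Matrix.mul_assoc, Matrix.mul_assoc, R_mul_NN]
    simp only [Matrix.mul_assoc]

theorem ch_E2 (hn : 3 ≤ n) (g : Equiv.Perm (Fin n)) :
    ch (E2 n) g = (R (X2 n) g).trace - (R (Fin n) g).trace := by
  rw [ch, E2, Matrix.sub_mul, Matrix.one_mul, Matrix.trace_sub]
  congr 1
  calc ((NN n)ᵀ * CC n * NN n * R (X2 n) g).trace
      = ((NN n)ᵀ * (CC n * (NN n * R (X2 n) g))).trace := by simp only [Matrix.mul_assoc]
    _ = ((CC n * (R (Fin n) g * NN n)) * (NN n)ᵀ).trace := by
        rw [Matrix.trace_mul_comm, R_mul_NN]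
    _ = (R (Fin n) g * (NN n * (NN n)ᵀ * CC n)).trace := by
        rw [Matrix.mul_assoc, Matrix.trace_mul_comm]
        simp only [Matrix.mul_assoc]
    _ = (R (Fin n) g).trace := by rw [NNt_CC hn, Matrix.mul_one]

end Pool.Agent.H3.HP
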