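import Pool.Agent.H3.HP.Frob2
import Pool.Agent.H3.HP.Sn

/-!
# Two-element sets fixed by a permutation
-/

set_option autoImplicit false

open Finset

namespace Pool.Agent.H3.HP

variable {n : ℕ}

theorem smul_X2_eq_iff (σ : Equiv.Perm (Fin n)) (s : X2 n) :
    σ • s = s ↔ ∀ i ∈ s.1, σ i ∈ s.1 := by
  constructor
  · intro h i hi
    have h1 : σ i ∈ (σ • s).1 := by
      rw [mem_smul_X2]
      simpa using hi
    rwa [h] at h1
  · intro h
    apply Subtype.ext
    rw [smul_X2_val]
    apply Finset.eq_of_subset_of_card_le
    · intro j hj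
      obtain ⟨i, hi, rfl⟩ := Finset.mem_map.1 hj
      exact h i hi
    · rw [Finset.card_map]

theorem card_fixed_pairs (σ : Equiv.Perm (Fin n)) :
    (Finset.univ.filter (fun s : X2 n => σ • s = s)).card =
      (Finset.univ.filter (fun x => σ x = x)).card.choose 2 + σ.cycleType.count 2 := by
  classical
  rw [← Finset.card_filter_add_card_filter_not (s := Finset.univ.filter (fun s : X2 n => σ • s = s))
    (fun s : X2 n => ∀ i ∈ s.1, σ i = i)]
  congr 1
  · rw [← Finset.card_powersetCard]
    apply Finset.card_bij (fun (s : X2 n) _ => s.1)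
    · intro s hs
      simp only [Finset.mem_filter, Finset.mem_univ, true_and] at hs
      rw [Finset.mem_powersetCard]
      refine ⟨fun i hi => ?_, s.2⟩
      simp only [Finset.mem_filter, Finset.mem_univ, true_and]
      exact hs.2 i hi
    · intro s _ t _ h
      exact Subtype.ext h
    · intro s hs
      rw [Finset.mem_powersetCard] at hs
      refine ⟨⟨s, hs.2⟩, ?_, rfl⟩
      have h1 : ∀ i ∈ s, σ i = i := by
        intro i hi
        have := hs.1 hi
        simpa using this
      simp only [Finset.mem_filter, Finset.mem_univ, true_and]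
      refine ⟨?_, h1⟩
      rw [smul_X2_eq_iff]
      intro i hi
      rw [h1 i hi]
      exact hi
  · rw [Equiv.Perm.cycleType_def, Multiset.count_map]
    have h0 : (Multiset.filter (fun a => 2 = (Finset.card ∘ Equiv.Perm.support) a)
        σ.cycleFactorsFinset.1).card =
        (σ.cycleFactorsFinset.filter (fun c => c.support.card = 2)).card := by
      show _ = ((σ.cycleFactorsFinset.filter (fun c => c.support.card = 2)).1).card
      rw [Finset.filter_val]
      congr 1
      apply Multiset.filter_congr
      intro c _
      exact eq_comm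
    rw [h0]
    symm
    apply Finset.card_bij (fun (c : Equiv.Perm (Fin n)) hc =>
      (⟨c.support, (Finset.mem_filter.1 hc).2⟩ : X2 n))
    · intro c hc
      obtain ⟨hc1, hc2⟩ := Finset.mem_filter.1 hc
      rw [Equiv.Perm.mem_cycleFactorsFinset_iff] at hc1
      simp only [Finset.mem_filter, Finset.mem_univ, true_and]
      constructor
      · rw [smul_X2_eq_iff]
        intro i hi
        show σ i ∈ c.support
        rw [← hc1.2 i hi]
        exact Equiv.Perm.apply_mem_support.2 hi
      · intro h
        obtain ⟨i, hi⟩ : c.support.Nonempty := by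
          rw [← Finset.card_pos, hc2]; norm_num
        have h1 := h i hi
        rw [← hc1.2 i hi] at h1
        exact (Equiv.Perm.mem_support.1 hi) h1
    · intro c hc c' hc' h
      have hs : c.support = c'.support := congrArg Subtype.val h
      have hc1 := (Equiv.Perm.mem_cycleFactorsFinset_iff.1 (Finset.mem_filter.1 hc).1).2
      have hc1' := (Equiv.Perm.mem_cycleFactorsFinset_iff.1 (Finset.mem_filter.1 hc').1).2
      ext i : 1
      by_cases hi : i ∈ c.support
      · rw [hc1 i hi, hc1' i (hs ▸ hi)]
      · have hi' : i ∉ c'.support := hs ▸ hi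
        rw [Equiv.Perm.notMem_support.1 hi, Equiv.Perm.notMem_support.1 hi']
    · intro s hs
      simp only [Finset.mem_filter, Finset.mem_univ, true_and] at hs
      obtain ⟨hs1, hs2⟩ := hs
      rw [smul_X2_eq_iff] at hs1
      obtain ⟨i, j, hij, hsij⟩ := Finset.card_eq_two.1 s.2
      have himem : i ∈ s.1 := by rw [hsij]; simp
      have hjmem : j ∈ s.1 := by rw [hsij]; simp
      have hi := hs1 i himem
      have hj := hs1 j hjmem
      rw [hsij] at hi hj
      simp only [Finset.mem_insert, Finset.mem_singleton] at hi hj
      have hnf : ¬ (σ i = i ∧ σ j = j) := by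
        rintro ⟨h1, h2⟩
        apply hs2
        intro k hk
        rw [hsij] at hk
        simp only [Finset.mem_insert, Finset.mem_singleton] at hk
        rcases hk with rfl | rfl
        · exact h1
        · exact h2
      have hσ : σ i = j ∧ σ j = i := by
        rcases hi with hi | hi
        · rcases hj with hj | hj
          · exact absurd (σ.injective (hi.trans hj.symm)) hij
          · exact absurd ⟨hi, hj⟩ hnf
        · rcases hj with hj | hj
          · exact ⟨hi, hj⟩
          · exact absurd (σ.injective (hi.trans hj.symm)) hij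
      have hsup : (Equiv.swap i j).support = s.1 := by
        rw [Equiv.Perm.support_swap hij, hsij]
      refine ⟨Equiv.swap i j, ?_, Subtype.ext hsup⟩
      rw [Finset.mem_filter, Equiv.Perm.mem_cycleFactorsFinset_iff]
      refine ⟨⟨Equiv.Perm.isCycle_swap hij, ?_⟩, by rw [hsup, s.2]⟩
      intro k hk
      rw [hsup, hsij] at hk
      simp only [Finset.mem_insert, Finset.mem_singleton] at hk
      rcases hk with rfl | rfl
      · rw [Equiv.swap_apply_left, hσ.1]
      · rw [Equiv.swap_apply_right, hσ.2]

/-- the partition `(2)`. -/
def lam2 : Nat.Partition 2 where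
  parts := {2}
  parts_pos := by simp
  parts_sum := by simp

theorem exponent_eq (hn : 3 ≤ n) :
    Finsupp.equivFunOnFinite.symm (fun i : Fin n =>
            (if (i : ℕ) = 0 then n - 2
              else ((Finset.range 2).filter (fun t =>
                (i : ℕ) ≤ Multiset.card (lam2.parts.filter (fun p => t + 1 ≤ p)))).card)
            + (n - 1 - (i : ℕ))) = TT n := by
  ext i
  show (if (i : ℕ) = 0 then n - 2
              else ((Finset.range 2).filter (fun t =>
                (i : ℕ) ≤ Multiset.card (lam2.parts.filter (fun p => t + 1 ≤ p)))).card)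
            + (n - 1 - (i : ℕ)) = _
  rw [TT_apply]
  have hcard : ∀ t ∈ Finset.range 2, Multiset.card (lam2.parts.filter (fun p => t + 1 ≤ p)) = 1 := by
    intro t ht
    rw [Finset.mem_range] at ht
    have h1 : lam2.parts = {2} := rfl
    rw [h1, Multiset.filter_singleton, if_pos (by omega)]
    rfl
  have h2 : ((Finset.range 2).filter (fun t =>
      (i : ℕ) ≤ Multiset.card (lam2.parts.filter (fun p => t + 1 ≤ p)))) =
      (Finset.range 2).filter (fun _ => (i : ℕ) ≤ 1) := by
    apply Finset.filter_congr
    intro t ht
    rw [hcard t ht]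
  rw [h2]
  have := i.2
  by_cases h0 : (i : ℕ) = 0
  · rw [if_pos h0, if_pos h0]
    omega
  · rw [if_neg h0, if_neg h0]
    by_cases h1 : (i : ℕ) = 1
    · rw [if_pos h1, Finset.filter_true_of_mem (fun _ _ => by omega), Finset.card_range]
      omega
    · rw [if_neg h1, Finset.filter_false_of_mem (fun _ _ => by omega), Finset.card_empty]
      omega

/-- the coefficient formula gives the character of `(n - 2, 2)`. -/
theorem frobenius_formula (hn : 3 ≤ n) (σ : Equiv.Perm (Fin n)) :
    MvPolynomial.coeff
          (Finsupp.equivFunOnFinite.symm (fun i : Fin n =>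
            (if (i : ℕ) = 0 then n - 2
              else ((Finset.range 2).filter (fun t =>
                (i : ℕ) ≤ Multiset.card (lam2.parts.filter (fun p => t + 1 ≤ p)))).card)
            + (n - 1 - (i : ℕ))))
          ((∏ i : Fin n, ∏ j : Fin n,
              (if i < j then (MvPolynomial.X i - MvPolynomial.X j : MvPolynomial (Fin n) ℤ) else 1)) *
            (σ.cycleType.map (fun c => MvPolynomial.psum (Fin n) ℤ c)).prod *
            MvPolynomial.psum (Fin n) ℤ 1 ^ (Finset.univ.filter (fun x => σ x = x)).card) =
    ((Finset.univ.filter (fun s : X2 n => σ • s = s)).card : ℤ) -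
      ((Finset.univ.filter (fun x => σ x = x)).card : ℤ) := by
  rw [exponent_eq hn, mul_assoc]
  have h := coeff_delta_mul hn (PP σ) (PP_isHomogeneous σ)
  rw [coeff_ev_PP_two (by omega), coeff_ev_PP_one (by omega)] at h
  rw [card_fixed_pairs]
  push_cast
  rw [← h]
  rfl

end Pool.Agent.H3.HP
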