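import Mathlib

/-!
The first part (free groups of finite rank are Hopfian) is a copy of `Pool.Agent.H28.Hopf`.
-/

set_option autoImplicit false

namespace Pool.Agent.H3.HP

/-! ### free groups of finite rank are Hopfian -/

section Hopf

variable {α : Type*}

open Classical in
/-- restricted left multiplication on a finite set extends to a permutation. -/
theorem exists_perm_extend (V : Finset (FreeGroup α)) (x : FreeGroup α) :
    ∃ e : Equiv.Perm V, ∀ v : V, x * v.1 ∈ V → ((e v : V) : FreeGroup α) = x * v.1 := by
  let P : V → Prop := fun v => x * v.1 ∈ V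
  let Q : V → Prop := fun v => x⁻¹ * v.1 ∈ V
  let e0 : {v // P v} ≃ {v // Q v} :=
    { toFun := fun v => ⟨⟨x * v.1.1, v.2⟩, by
        show x⁻¹ * (x * v.1.1) ∈ V
        rw [inv_mul_cancel_left]; exact v.1.2⟩
      invFun := fun v => ⟨⟨x⁻¹ * v.1.1, v.2⟩, by
        show x * (x⁻¹ * v.1.1) ∈ V
        rw [mul_inv_cancel_left]; exact v.1.2⟩
      left_inv := fun v => by ext; simp
      right_inv := fun v => by ext; simp }
  refine ⟨e0.extendSubtype, fun v h => ?_⟩
  rw [Equiv.extendSubtype_apply_of_mem e0 v h]
  rfl

/-- every nontrivial element of a free group is detected by a finite permutation group. -/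
theorem exists_finite_detect (w : FreeGroup α) (hw : w ≠ 1) :
    ∃ (V : Finset (FreeGroup α)) (f : FreeGroup α →* Equiv.Perm V), f w ≠ 1 := by
  classical
  let L := w.toWord
  let V : Finset (FreeGroup α) := (L.tails.map FreeGroup.mk).toFinset
  have hVmem : ∀ M : List (α × Bool), M <:+ L → FreeGroup.mk M ∈ V := by
    intro M hM
    simp only [V, List.mem_toFinset, List.mem_map, List.mem_tails]
    exact ⟨M, hM, rfl⟩
  choose e he using exists_perm_extend V
  let f : FreeGroup α →* Equiv.Perm V := FreeGroup.lift (fun a => e (FreeGroup.of a))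
  have hf : ∀ x, f (FreeGroup.of x) = e (FreeGroup.of x) := fun x => by simp [f]
  have h1 : (1 : FreeGroup α) ∈ V := by
    have := hVmem [] (List.nil_suffix)
    simpa [FreeGroup.one_eq_mk] using this
  have key : ∀ M : List (α × Bool), M <:+ L →
      ((f (FreeGroup.mk M) ⟨1, h1⟩ : V) : FreeGroup α) = FreeGroup.mk M := by
    intro M
    induction M with
    | nil =>
      intro hM
      have : (FreeGroup.mk ([] : List (α × Bool))) = 1 := rfl
      simp [this]
    | cons a M ih =>
      intro hM
      have hM' : M <:+ L := (List.suffix_cons a M).trans hM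
      have hsplit : FreeGroup.mk (a :: M) = FreeGroup.mk [a] * FreeGroup.mk M := by
        rw [FreeGroup.mul_mk]; rfl
      have ihM := ih hM'
      rw [hsplit, map_mul, Equiv.Perm.mul_apply]
      obtain ⟨x, b⟩ := a
      cases b with
      | true =>
        have hx : FreeGroup.mk [(x, true)] = FreeGroup.of x := rfl
        have hmem : FreeGroup.of x * FreeGroup.mk M ∈ V := by
          rw [← hx, ← hsplit]; exact hVmem _ hM
        rw [hx, hf, he, ihM]
        rw [ihM]; exact hmem
      | false =>
        have hx : FreeGroup.mk [(x, false)] = (FreeGroup.of x)⁻¹ := rfl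
        have hmem : (FreeGroup.of x)⁻¹ * FreeGroup.mk M ∈ V := by
          rw [← hx, ← hsplit]; exact hVmem _ hM
        rw [hx, map_inv, hf]
        have h2 : e (FreeGroup.of x) ⟨(FreeGroup.of x)⁻¹ * FreeGroup.mk M, hmem⟩ =
            f (FreeGroup.mk M) ⟨1, h1⟩ := by
          apply Subtype.ext
          rw [he, ihM]
          · simp
          · simp only [mul_inv_cancel_left]
            exact hVmem _ hM'
        rw [← h2]
        simp
  refine ⟨V, f, fun h => hw ?_⟩
  have h2 := key L (List.suffix_refl L)
  have h3 : FreeGroup.mk L = w := FreeGroup.mk_toWord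
  rw [h3, h] at h2
  simpa using h2.symm

/-- free groups of finite rank are Hopfian. -/
theorem hopf [Finite α] (f : FreeGroup α →* FreeGroup α) (hf : Function.Surjective f) :
    Function.Injective f := by
  rw [injective_iff_map_eq_one]
  intro w hw
  by_contra hne
  obtain ⟨V, φ, hφ⟩ := exists_finite_detect w hne
  have : Finite (FreeGroup α →* Equiv.Perm V) := by
    exact Finite.of_injective (fun (g : FreeGroup α →* Equiv.Perm V) (a : α) => g (FreeGroup.of a))
      (fun g h hgh => FreeGroup.ext_hom _ _ (fun a => congrFun hgh a))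
  let T : (FreeGroup α →* Equiv.Perm V) → (FreeGroup α →* Equiv.Perm V) := fun g => g.comp f
  have hT : Function.Injective T := by
    intro g h hgh
    ext x : 1
    obtain ⟨y, hy⟩ := hf (FreeGroup.of x)
    rw [← hy]
    exact DFunLike.congr_fun hgh y
  have hTs : Function.Surjective T := Finite.surjective_of_injective hT
  obtain ⟨ψ, hψ⟩ := hTs φ
  apply hφ
  rw [← hψ]
  show ψ (f w) = 1
  rw [hw, map_one]

end Hopf

section Rank

open Function

/-- a free group that is the image of a free group of rank `j` has rank at most `j`. -/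
theorem exists_rank_le {G : Type*} [Group G] {j : ℕ} (f : FreeGroup (Fin j) →* G)
    (hf : Surjective f) {ι : Type*} (b : FreeGroupBasis ι G) :
    ∃ k : ℕ, k ≤ j ∧ Nonempty (ι ≃ Fin k) := by
  classical
  let Q := Multiplicative (ZMod 2)
  let Φ : (ι → Q) → (Fin j → Q) := fun g i => b.lift g (f (FreeGroup.of i))
  have hΦ : Injective Φ := by
    intro g h hgh
    have h1 : (b.lift g).comp f = (b.lift h).comp f := by
      apply FreeGroup.ext_hom
      intro i
      exact congrFun hgh i
    have h2 : b.lift g = b.lift h := by
      ext x : 1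
      obtain ⟨y, rfl⟩ := hf x
      exact DFunLike.congr_fun h1 y
    exact b.lift.injective h2
  have : Finite (ι → Q) := Finite.of_injective Φ hΦ
  have hQ : Nontrivial Q := inferInstanceAs (Nontrivial (Multiplicative (ZMod 2)))
  have hfin : Finite ι := by
    by_contra hinf
    rw [not_finite_iff_infinite] at hinf
    obtain ⟨q, hq⟩ := exists_ne (1 : Q)
    have h1 : Injective (fun (i : ι) => (Pi.mulSingle i q : ι → Q)) := by
      intro i i' h
      by_contra hne
      have := congrFun h i
      simp only [Pi.mulSingle_eq_same, Pi.mulSingle_eq_of_ne hne] at this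
      exact hq this
    have := Finite.of_injective _ h1
    exact not_finite ι
  have := Fintype.ofFinite ι
  refine ⟨Fintype.card ι, ?_, ⟨Fintype.equivFin ι⟩⟩
  have h1 := Fintype.card_le_of_injective Φ hΦ
  rw [Fintype.card_fun, Fintype.card_fun, Fintype.card_fin] at h1
  have h2 : Fintype.card Q = 2 := by
    show Fintype.card (Multiplicative (ZMod 2)) = 2
    rw [Fintype.card_multiplicative, ZMod.card]
  rw [h2] at h1
  exact (Nat.pow_le_pow_iff_right (by norm_num)).1 h1

/-- **Rank drop**: the image of a free group of rank `j` in a free group under a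
non-injective homomorphism is free of rank less than `j`. -/
theorem exists_rank_lt {G : Type*} [Group G] {j : ℕ} (b : FreeGroupBasis (Fin j) G)
    {Y : Type} (f : G →* FreeGroup Y) (g : G) (hg : g ≠ 1) (hfg : f g = 1) :
    ∃ k : ℕ, k < j ∧ Nonempty (FreeGroupBasis (Fin k) f.range) := by
  classical
  let F : FreeGroup (Fin j) →* f.range := f.rangeRestrict.comp b.repr.symm.toMonoidHom
  have hF : Surjective F := by
    intro x
    obtain ⟨y, hy⟩ := f.rangeRestrict_surjective x
    refine ⟨b.repr y, ?_⟩
    show f.rangeRestrict (b.repr.symm (b.repr y)) = x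
    rw [MulEquiv.symm_apply_apply, hy]
  let c := IsFreeGroup.basis f.range
  obtain ⟨k, hk, ⟨e⟩⟩ := exists_rank_le F hF c
  refine ⟨k, lt_of_le_of_ne hk ?_, ⟨c.reindex e⟩⟩
  rintro rfl
  let T : FreeGroup (Fin k) →* FreeGroup (Fin k) := (c.reindex e).repr.toMonoidHom.comp F
  have hT : Surjective T := (c.reindex e).repr.surjective.comp hF
  have hTi := hopf T hT
  apply hg
  have h1 : T (b.repr g) = T 1 := by
    rw [map_one]
    show (c.reindex e).repr (f.rangeRestrict (b.repr.symm (b.repr g))) = 1
    rw [MulEquiv.symm_apply_apply]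
    have h2 : f.rangeRestrict g = 1 := by
      apply Subtype.ext
      exact hfg
    rw [h2, map_one]
  have h3 := hTi h1
  exact b.repr.injective (by rw [h3, map_one])

/-- a free group of rank at most one is commutative. -/
theorem comm_of_rank_le_one {G : Type*} [Group G] {k : ℕ} (hk : k ≤ 1)
    (b : FreeGroupBasis (Fin k) G) (x y : G) : x * y = y * x := by
  have key : ∀ x y : FreeGroup (Fin k), x * y = y * x := by
    intro x y
    have hsub : Subsingleton (Fin k) := by
      rw [Fin.subsingleton_iff_le_one]
      exact hk
    rcases isEmpty_or_nonempty (Fin k) with h0 | h0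
    · exact Subsingleton.elim _ _
    · obtain ⟨i⟩ := h0
      have : Unique (Fin k) := ⟨⟨i⟩, fun j => Subsingleton.elim _ _⟩
      have h3 : FreeGroup (Fin k) ≃* Multiplicative ℤ := by
        exact FreeGroup.mulEquivIntOfUnique
      apply h3.injective
      rw [map_mul, map_mul, mul_comm]
  apply b.repr.injective
  rw [map_mul, map_mul]
  exact key _ _

end Rank

end Pool.Agent.H3.HP
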