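import Pool.Agent.H3.HP.Cut
import Pool.Agent.H3.HP.Hopf

/-!
# The word `w = (d⁻¹ z d) (c⁻¹ z c) x`, `z = x⁻¹ a⁻¹ x a`, is primitive in every subgroup of
rank at most three that contains it.
-/

set_option autoImplicit false

namespace Pool.Agent.H3.HP

/-- the letters. -/
abbrev lx : FreeGroup (Fin 4) := FreeGroup.of 0
abbrev la : FreeGroup (Fin 4) := FreeGroup.of 1
abbrev lc : FreeGroup (Fin 4) := FreeGroup.of 2
abbrev ld : FreeGroup (Fin 4) := FreeGroup.of 3

/-- the commutator `x⁻¹ a⁻¹ x a`. -/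
def zz : FreeGroup (Fin 4) := lx⁻¹ * la⁻¹ * lx * la

/-- the word. -/
def ww : FreeGroup (Fin 4) := ld⁻¹ * zz * ld * (lc⁻¹ * zz * lc) * lx

section

variable {X Ω : Type} [MulAction (FreeGroup X) Ω] {α ω : Ω} {y₀ : X}

theorem Av.pos' {g : FreeGroup X} {y : X} (hg : Av (α, y₀) ω g) (h : y ≠ y₀) :
    Av (α, y₀) ω (FreeGroup.of y * g) :=
  Av.pos _ _ _ hg (fun h' => h (congrArg Prod.snd h'))

theorem Av.neg' {g : FreeGroup X} {y : X} (hg : Av (α, y₀) ω g) (h : y ≠ y₀) :
    Av (α, y₀) ω ((FreeGroup.of y)⁻¹ * g) :=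
  Av.neg _ _ _ hg (fun h' => h (congrArg Prod.snd h'))

theorem Av.pos'' {g : FreeGroup X} {y : X} (hg : Av (α, y₀) ω g) (h : g • ω ≠ α) :
    Av (α, y₀) ω (FreeGroup.of y * g) :=
  Av.pos _ _ _ hg (fun h' => h (congrArg Prod.fst h'))

theorem Av.neg'' {g : FreeGroup X} {y : X} (hg : Av (α, y₀) ω g)
    (h : (FreeGroup.of y)⁻¹ • g • ω ≠ α) :
    Av (α, y₀) ω ((FreeGroup.of y)⁻¹ * g) :=
  Av.neg _ _ _ hg (fun h' => h (congrArg Prod.fst h'))

end

/-- the homomorphism replacing the letter `i` by `g`. -/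
def subst (i : Fin 4) (g : FreeGroup (Fin 4)) : FreeGroup (Fin 4) →* FreeGroup (Fin 4) :=
  FreeGroup.lift (fun k => if k = i then g else FreeGroup.of k)

theorem subst_self (i : Fin 4) (g : FreeGroup (Fin 4)) : subst i g (FreeGroup.of i) = g := by
  simp [subst]

theorem subst_ne (i k : Fin 4) (g : FreeGroup (Fin 4)) (h : k ≠ i) :
    subst i g (FreeGroup.of k) = FreeGroup.of k := by
  simp [subst, h]

/-- a homomorphism to a small group used to see that elements are nontrivial. -/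
theorem not_comm_aux (g : FreeGroup (Fin 4)) (hg : g = 1 ∨ g = la) :
    lx * (g * zz * g⁻¹) ≠ (g * zz * g⁻¹) * lx := by
  rcases hg with rfl | rfl
  · simp only [zz]
    decide
  · simp only [zz]
    decide

/-- the end of the argument: two substitutions drop the rank from at most three to at most one. -/
theorem final_step (i k : Fin 4) (hi : i = 2 ∨ i = 3) (hk : k = 2 ∨ k = 3) (hik : i ≠ k)
    (g : FreeGroup (Fin 4)) (hg : g = 1 ∨ g = la) (j : ℕ) (hj : j < 4)
    (H : Subgroup (FreeGroup (Fin 4))) (b : FreeGroupBasis (Fin j) H)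
    (hx : lx ∈ H) (h1 : g * FreeGroup.of i ∈ H)
    (h2 : (FreeGroup.of i)⁻¹ * zz * FreeGroup.of i ∈ H)
    (h3 : (FreeGroup.of k)⁻¹ * zz * FreeGroup.of k ∈ H) : False := by
  -- the element `y = g z g⁻¹`
  have hy : g * zz * g⁻¹ ∈ H := by
    have h4 := H.mul_mem (H.mul_mem h1 h2) (H.inv_mem h1)
    have h5 : g * FreeGroup.of i * ((FreeGroup.of i)⁻¹ * zz * FreeGroup.of i) *
        (g * FreeGroup.of i)⁻¹ = g * zz * g⁻¹ := by group
    rwa [h5] at h4
  -- facts on substitutions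
  have hsx : ∀ l : Fin 4, (l = 2 ∨ l = 3) → ∀ g', subst l g' lx = lx := by
    rintro l (rfl | rfl) g' <;> exact subst_ne _ _ _ (by decide)
  have hsa : ∀ l : Fin 4, (l = 2 ∨ l = 3) → ∀ g', subst l g' la = la := by
    rintro l (rfl | rfl) g' <;> exact subst_ne _ _ _ (by decide)
  have hsz : ∀ l : Fin 4, (l = 2 ∨ l = 3) → ∀ g', subst l g' zz = zz := by
    intro l hl g'
    simp only [zz, map_mul, map_inv, hsx l hl, hsa l hl]
  have hsg : ∀ l : Fin 4, (l = 2 ∨ l = 3) → ∀ g', subst l g' g = g := by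
    intro l hl g'
    rcases hg with rfl | rfl
    · exact map_one _
    · exact hsa l hl g'
  -- first substitution
  obtain ⟨j1, hj1, ⟨b1⟩⟩ := exists_rank_lt b ((subst i g⁻¹).comp H.subtype)
    ⟨g * FreeGroup.of i, h1⟩ (by
      intro h
      have h' : g * FreeGroup.of i = 1 := congrArg Subtype.val h
      rcases hi with rfl | rfl <;> rcases hg with rfl | rfl <;> exact absurd h' (by decide))
    (by
      show subst i g⁻¹ (g * FreeGroup.of i) = 1
      rw [map_mul, hsg i hi, subst_self, mul_inv_cancel])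
  let H1 : Subgroup (FreeGroup (Fin 4)) := ((subst i g⁻¹).comp H.subtype).range
  have hmem : ∀ (t t' : FreeGroup (Fin 4)), t ∈ H → subst i g⁻¹ t = t' → t' ∈ H1 := by
    intro t t' ht htt
    exact ⟨⟨t, ht⟩, htt⟩
  have hx1 : lx ∈ H1 := hmem lx _ hx (hsx i hi _)
  have hy1 : g * zz * g⁻¹ ∈ H1 := hmem _ _ hy (by
    rw [map_mul, map_mul, map_inv, hsg i hi, hsz i hi])
  have hk1 : (FreeGroup.of k)⁻¹ * zz * FreeGroup.of k ∈ H1 := hmem _ _ h3 (by
    rw [map_mul, map_mul, map_inv, hsz i hi, subst_ne _ _ _ hik.symm])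
  -- second substitution
  have hq : (FreeGroup.of k)⁻¹ * zz * FreeGroup.of k * (g * zz * g⁻¹)⁻¹ ∈ H1 :=
    H1.mul_mem hk1 (H1.inv_mem hy1)
  obtain ⟨j2, hj2, ⟨b2⟩⟩ := exists_rank_lt b1 ((subst k g⁻¹).comp H1.subtype)
    ⟨_, hq⟩ (by
      intro h
      have h' : (FreeGroup.of k)⁻¹ * zz * FreeGroup.of k * (g * zz * g⁻¹)⁻¹ = 1 :=
        congrArg Subtype.val h
      simp only [zz] at h'
      rcases hk with rfl | rfl <;> rcases hg with rfl | rfl <;> exact absurd h' (by decide))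
    (by
      show subst k g⁻¹ ((FreeGroup.of k)⁻¹ * zz * FreeGroup.of k * (g * zz * g⁻¹)⁻¹) = 1
      simp only [map_mul, map_inv, hsz k hk, subst_self, hsg k hk]
      group)
  let H2 : Subgroup (FreeGroup (Fin 4)) := ((subst k g⁻¹).comp H1.subtype).range
  have hx2 : lx ∈ H2 := ⟨⟨lx, hx1⟩, hsx k hk _⟩
  have hy2 : g * zz * g⁻¹ ∈ H2 := ⟨⟨_, hy1⟩, by
    show subst k g⁻¹ (g * zz * g⁻¹) = g * zz * g⁻¹
    rw [map_mul, map_mul, map_inv, hsg k hk, hsz k hk]⟩
  have hcomm := comm_of_rank_le_one (by omega) b2 ⟨lx, hx2⟩ ⟨_, hy2⟩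
  exact not_comm_aux g hg (congrArg Subtype.val hcomm)

/-- **the primitivity rank of `ww` is at least four.** -/
theorem ww_primitive (j : ℕ) (hj : j < 4) (H : Subgroup (FreeGroup (Fin 4)))
    (hb : Nonempty (FreeGroupBasis (Fin j) H)) (hw : ww ∈ H) :
    ∃ (ι : Type) (c : FreeGroupBasis ι H) (i : ι), ((c i : H) : FreeGroup (Fin 4)) = ww := by
  obtain ⟨b⟩ := hb
  by_contra hnp
  let ω₀ : FreeGroup (Fin 4) ⧸ H := ((1 : FreeGroup (Fin 4)) : FreeGroup (Fin 4) ⧸ H)
  have hfix : ∀ g : FreeGroup (Fin 4), g ∈ H → g • ω₀ = ω₀ := by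
    intro g hg
    show ((g * 1 : FreeGroup (Fin 4)) : FreeGroup (Fin 4) ⧸ H) =
      ((1 : FreeGroup (Fin 4)) : FreeGroup (Fin 4) ⧸ H)
    rw [QuotientGroup.eq, mul_one, mul_one]
    exact H.inv_mem hg
  have hmemH : ∀ g : FreeGroup (Fin 4), g • ω₀ = ω₀ → g ∈ H := by
    intro g hg
    have h1 : ((g * 1 : FreeGroup (Fin 4)) : FreeGroup (Fin 4) ⧸ H) =
      ((1 : FreeGroup (Fin 4)) : FreeGroup (Fin 4) ⧸ H) := hg
    rw [QuotientGroup.eq, mul_one, mul_one] at h1
    exact (inv_mem_iff.1 h1)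
  -- step 1: the letter `c`
  have s1 : lc⁻¹ • zz • lc • lx • ω₀ = lx • ω₀ := by
    by_contra hne
    apply hnp
    refine primitive_of_cross_once H ww hw
      (ld⁻¹ * (lx⁻¹ * (la⁻¹ * (lx * (la * (ld * (lc⁻¹ *
        (lx⁻¹ * (la⁻¹ * (lx * (la * 1)))))))))))
      (lx * 1) 2 ?_ ?_ ?_
    · simp only [ww, zz]
      group
    · exact Av.pos' (Av.one _) (by decide)
    · refine Av.neg' (Av.neg' (Av.neg' (Av.pos' (Av.pos' (Av.pos' (Av.neg'' (Av.neg' (Av.neg'
        (Av.pos' (Av.pos' (Av.one _) (by decide)) (by decide)) (by decide)) (by decide)) ?_)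
        (by decide)) (by decide)) (by decide)) (by decide)) (by decide)) (by decide)
      intro h
      apply hne
      simp only [mul_one] at h
      show lc⁻¹ • (lx⁻¹ * la⁻¹ * lx * la) • lc • lx • ω₀ = lx • ω₀
      rw [← mul_assoc, ← mul_assoc] at h
      exact h
  -- step 2: the letter `d`
  have s2 : lx • ω₀ = ω₀ := by
    by_contra hne
    apply hnp
    refine primitive_of_cross_once H ww hw
      (ld⁻¹ * (lx⁻¹ * (la⁻¹ * (lx * (la * 1)))))
      (lc⁻¹ * (lx⁻¹ * (la⁻¹ * (lx * (la * (lc * (lx * 1))))))) 3 ?_ ?_ ?_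
    · simp only [ww, zz]
      group
    · exact Av.neg' (Av.neg' (Av.neg' (Av.pos' (Av.pos' (Av.pos' (Av.pos' (Av.one _)
        (by decide)) (by decide)) (by decide)) (by decide)) (by decide)) (by decide)) (by decide)
    · refine Av.neg'' (Av.neg' (Av.neg' (Av.pos' (Av.pos' (Av.one _) (by decide)) (by decide))
        (by decide)) (by decide)) ?_
      intro h
      apply hne
      have h1 : (lc⁻¹ * (lx⁻¹ * (la⁻¹ * (lx * (la * (lc * (lx * 1))))))) •
          ω₀ = lx • ω₀ := by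
        rw [← s1]
        simp only [zz, ← mul_smul]
        refine congrArg (fun t : FreeGroup (Fin 4) => t • ω₀) ?_
        group
      have h2 : ld⁻¹ • (lx⁻¹ * (la⁻¹ * (lx * (la * 1)))) • ld •
          (lc⁻¹ * (lx⁻¹ * (la⁻¹ * (lx * (la * (lc * (lx * 1))))))) • ω₀ =
          ww • ω₀ := by
        simp only [ww, zz, ← mul_smul]
        refine congrArg (fun t : FreeGroup (Fin 4) => t • ω₀) ?_
        group
      have h3 : ww • ω₀ = lx • ω₀ := by
        rw [← h2, ← h1]
        exact h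
      rw [← h3, hfix ww hw]
  have hx : lx ∈ H := hmemH _ s2
  have hc : lc⁻¹ * zz * lc ∈ H := by
    apply hmemH
    rw [s2] at s1
    rw [mul_smul, mul_smul]
    exact s1
  have hd : ld⁻¹ * zz * ld ∈ H := by
    have h1 := H.mul_mem (H.mul_mem hw (H.inv_mem hx)) (H.inv_mem hc)
    have h2 : ww * lx⁻¹ * (lc⁻¹ * zz * lc)⁻¹ = ld⁻¹ * zz * ld := by
      simp only [ww]
      group
    rwa [h2] at h1
  -- step 3: the edge `(ω₀, x)`
  have s3 : lc • ω₀ = ω₀ ∨ la • lc • ω₀ = ω₀ ∨ ld • ω₀ = ω₀ ∨ la • ld • ω₀ = ω₀ := by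
    by_contra hne
    push Not at hne
    obtain ⟨n1, n2, n3, n4⟩ := hne
    apply hnp
    refine primitive_of_cross_once H ww hw
      (ld⁻¹ * (lx⁻¹ * (la⁻¹ * (lx * (la * (ld * (lc⁻¹ *
        (lx⁻¹ * (la⁻¹ * (lx * (la * (lc * 1))))))))))))
      1 0 ?_ ?_ ?_
    · simp only [ww, zz]
      group
    · exact Av.one _
    · have e1 : lx • (1 : FreeGroup (Fin 4)) • ω₀ = ω₀ := by
        rw [one_smul]; exact s2
      have e2 : (1 : FreeGroup (Fin 4)) • ω₀ = ω₀ := one_smul _ _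
      show Av ((1 : FreeGroup (Fin 4)) • ω₀, (0 : Fin 4))
        (lx • (1 : FreeGroup (Fin 4)) • ω₀) _
      rw [e1, e2]
      refine Av.neg' (Av.neg'' (Av.neg' (Av.pos'' (Av.pos' (Av.pos' (Av.neg' (Av.neg'' (Av.neg'
        (Av.pos'' (Av.pos' (Av.pos' (Av.one _) (by decide)) (by decide)) ?_) (by decide)) ?_)
        (by decide)) (by decide)) (by decide)) ?_) (by decide)) ?_) (by decide)
      · intro h
        apply n2
        rw [← mul_smul]
        have : la * lc = la * (lc * 1) := by simp only [mul_one]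
        rw [this]
        exact h
      · intro h
        apply n1
        have h2 : lx⁻¹ • (la⁻¹ * (lx * (la * (lc * 1)))) • ω₀ =
            lc • (lc⁻¹ * zz * lc) • ω₀ := by
          simp only [zz, ← mul_smul]
          refine congrArg (fun t : FreeGroup (Fin 4) => t • ω₀) ?_
          group
        rw [hfix _ hc] at h2
        rw [← h2]
        exact h
      · intro h
        apply n4
        have h2 : (la * (ld * (lc⁻¹ *
            (lx⁻¹ * (la⁻¹ * (lx * (la * (lc * 1)))))))) • ω₀ =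
            la • ld • (lc⁻¹ * zz * lc) • ω₀ := by
          simp only [zz, ← mul_smul]
          refine congrArg (fun t : FreeGroup (Fin 4) => t • ω₀) ?_
          group
        rw [hfix _ hc] at h2
        rw [← h2]
        exact h
      · intro h
        apply n3
        have h2 : lx⁻¹ • (la⁻¹ * (lx * (la * (ld * (lc⁻¹ *
            (lx⁻¹ * (la⁻¹ * (lx * (la * (lc * 1)))))))))) • ω₀ =
            ld • (ld⁻¹ * zz * ld) • (lc⁻¹ * zz * lc) • ω₀ := by
          simp only [zz, ← mul_smul]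
          refine congrArg (fun t : FreeGroup (Fin 4) => t • ω₀) ?_
          group
        rw [hfix _ hc, hfix _ hd] at h2
        rw [← h2]
        exact h
  rcases s3 with h | h | h | h
  · exact final_step 2 3 (Or.inl rfl) (Or.inr rfl) (by decide) 1 (Or.inl rfl) j hj H b hx
      (by rw [one_mul]; exact hmemH _ h) hc hd
  · exact final_step 2 3 (Or.inl rfl) (Or.inr rfl) (by decide) la (Or.inr rfl) j hj H b hx
      (hmemH _ (by rw [mul_smul]; exact h)) hc hd
  · exact final_step 3 2 (Or.inr rfl) (Or.inl rfl) (by decide) 1 (Or.inl rfl) j hj H b hx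
      (by rw [one_mul]; exact hmemH _ h) hd hc
  · exact final_step 3 2 (Or.inr rfl) (Or.inl rfl) (by decide) la (Or.inr rfl) j hj H b hx
      (hmemH _ (by rw [mul_smul]; exact h)) hd hc

end Pool.Agent.H3.HP
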