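import Pool.Agent.H3.HP.Sn3
import Pool.Agent.H3.HP.Frob3
import Pool.Agent.H3.HP.Word

/-!
# The average of the character
-/

set_option autoImplicit false
set_option linter.unusedSectionVars false

open Finset

namespace Pool.Agent.H3.HP

section General

variable {G : Type} [Group G] [Fintype G]
variable {Y : Type} [Fintype Y] [DecidableEq Y] [MulAction G Y]

theorem sum_conj_left {E : Matrix Y Y ℝ} (hE : IsProj G E) (hS : IsSchur G E) (g z : G) :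
    E.trace * ∑ d : G, ch E (d⁻¹ * z * d * g) = (Fintype.card G : ℝ) * ch E g * ch E z := by
  rw [← ch_star hE hS g z]
  congr 1
  apply Fintype.sum_equiv (Equiv.inv G)
  intro d
  simp only [Equiv.inv_apply, inv_inv]
  rw [ch_mul_comm hE]

theorem sum_ch_nonneg {E : Matrix Y Y ℝ} (hE : IsProj G E) : 0 ≤ ∑ x : G, ch E x := by
  have h := pos_comm hE (isProj_unit G) (1 : G)
  simpa [ch_unit] using h

theorem pos_comm' {X : Type} [Fintype X] [DecidableEq X] [MulAction G X]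
    {E : Matrix X X ℝ} (hE : IsProj G E) {Q : Matrix Y Y ℝ}
    (hQ : IsProj G Q) (a : G) : 0 ≤ ∑ x : G, ch E x * ch Q (x⁻¹ * a⁻¹ * x * a) := by
  have h := pos_comm hE hQ a⁻¹
  have h1 : ∑ x : G, ch E x * ch Q (x⁻¹ * a⁻¹ * x * a) =
      ∑ x : G, ch E x * ch Q (x * a⁻¹ * x⁻¹ * a⁻¹⁻¹) := by
    apply Fintype.sum_equiv (Equiv.inv G)
    intro x
    simp only [Equiv.inv_apply, inv_inv]
    rw [ch_inv hE]
  rw [h1]
  exact h

end General

/-- four-fold sums. -/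
theorem sum_fin_four {G : Type} [Fintype G] (F : G → G → G → G → ℝ) :
    ∑ s : Fin 4 → G, F (s 0) (s 1) (s 2) (s 3) = ∑ x, ∑ a, ∑ c, ∑ d, F x a c d := by
  have h : ∑ s : Fin 4 → G, F (s 0) (s 1) (s 2) (s 3) =
      ∑ p : G × G × G × G, F p.1 p.2.1 p.2.2.1 p.2.2.2 := by
    let e : (Fin 4 → G) ≃ G × G × G × G :=
      { toFun := fun s => (s 0, s 1, s 2, s 3)
        invFun := fun p => ![p.1, p.2.1, p.2.2.1, p.2.2.2]
        left_inv := by
          intro s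
          ext i
          fin_cases i <;> rfl
        right_inv := by
          rintro ⟨x, a, c, d⟩
          rfl }
    exact Fintype.sum_equiv e _ _ (fun s => rfl)
  rw [h]
  simp only [Fintype.sum_prod_type]

theorem lift_ww {G : Type} [Group G] (s : Fin 4 → G) :
    FreeGroup.lift s ww = (s 3)⁻¹ * ((s 0)⁻¹ * (s 1)⁻¹ * s 0 * s 1) * s 3 *
      ((s 2)⁻¹ * ((s 0)⁻¹ * (s 1)⁻¹ * s 0 * s 1) * s 2) * s 0 := by
  simp [ww, zz]

variable {n : ℕ}

/-- **the lower bound for the average.** -/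
theorem avg_lower (hn : 5 ≤ n) :
    (Fintype.card (Equiv.Perm (Fin n)) : ℝ) ^ 4 ≤ (E2 n).trace ^ 2 * ((n : ℝ) - 1) *
      ∑ s : Fin 4 → Equiv.Perm (Fin n), ch (E2 n) (FreeGroup.lift s ww) := by
  set G := Equiv.Perm (Fin n)
  have hE2 : IsProj G (E2 n) := isProj_E2 (by omega)
  have hS2 : IsSchur G (E2 n) := isSchur_E2 (by omega)
  have hE1 : IsProj G (E1 n) := isProj_E1 (by omega)
  have hS1 : IsSchur G (E1 n) := isSchur_E1 (by omega)
  obtain ⟨Q1, hQ1, hQ1c⟩ := exists_Q1 hn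
  obtain ⟨Q2, hQ2, hQ2c⟩ := exists_Q2 hn
  set K : ℝ := (Fintype.card G : ℝ) with hK
  have hK0 : 0 < K := by
    rw [hK]
    exact_mod_cast Fintype.card_pos
  have hn1 : (0 : ℝ) < (n : ℝ) - 1 := by
    have : (5 : ℝ) ≤ n := by exact_mod_cast hn
    linarith
  -- the sums over `c` and `d`
  have h1 : ∀ x a : G, (E2 n).trace ^ 2 * ∑ c : G, ∑ d : G,
      ch (E2 n) (d⁻¹ * (x⁻¹ * a⁻¹ * x * a) * d * (c⁻¹ * (x⁻¹ * a⁻¹ * x * a) * c) * x) =
      K ^ 2 * (ch (E2 n) x * ch (E2 n) (x⁻¹ * a⁻¹ * x * a) ^ 2) := by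
    intro x a
    set z : G := x⁻¹ * a⁻¹ * x * a with hz
    have h2 : ∀ c : G, (E2 n).trace * ∑ d : G, ch (E2 n) (d⁻¹ * z * d * (c⁻¹ * z * c) * x) =
        K * ch (E2 n) (c⁻¹ * z * c * x) * ch (E2 n) z := by
      intro c
      rw [← sum_conj_left hE2 hS2 (c⁻¹ * z * c * x) z]
      simp only [mul_assoc]
    have h3 : (E2 n).trace * ∑ c : G, ch (E2 n) (c⁻¹ * z * c * x) =
        K * ch (E2 n) x * ch (E2 n) z := sum_conj_left hE2 hS2 x z
    calc (E2 n).trace ^ 2 * ∑ c : G, ∑ d : G, ch (E2 n) (d⁻¹ * z * d * (c⁻¹ * z * c) * x)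
        = (E2 n).trace * ∑ c : G, (E2 n).trace * ∑ d : G,
            ch (E2 n) (d⁻¹ * z * d * (c⁻¹ * z * c) * x) := by
          rw [← Finset.mul_sum]; ring
      _ = (E2 n).trace * ∑ c : G, K * ch (E2 n) (c⁻¹ * z * c * x) * ch (E2 n) z := by
          simp only [h2]
      _ = K * ch (E2 n) z * ((E2 n).trace * ∑ c : G, ch (E2 n) (c⁻¹ * z * c * x)) := by
          rw [Finset.mul_sum, Finset.mul_sum, Finset.mul_sum]
          refine Finset.sum_congr rfl fun c _ => ?_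
          ring
      _ = K ^ 2 * (ch (E2 n) x * ch (E2 n) z ^ 2) := by
          rw [h3]; ring
  -- the whole sum
  have h4 : (E2 n).trace ^ 2 * ∑ s : Fin 4 → G, ch (E2 n) (FreeGroup.lift s ww) =
      K ^ 2 * ∑ x : G, ∑ a : G, ch (E2 n) x * ch (E2 n) (x⁻¹ * a⁻¹ * x * a) ^ 2 := by
    simp only [lift_ww]
    rw [sum_fin_four (fun x a c d => ch (E2 n) (d⁻¹ * (x⁻¹ * a⁻¹ * x * a) * d *
      (c⁻¹ * (x⁻¹ * a⁻¹ * x * a) * c) * x)), Finset.mul_sum, Finset.mul_sum]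
    refine Finset.sum_congr rfl fun x _ => ?_
    rw [Finset.mul_sum, Finset.mul_sum]
    refine Finset.sum_congr rfl fun a _ => ?_
    exact h1 x a
  -- positivity
  have h5 : ∑ x : G, ∑ a : G, ch (E2 n) x * ch (E1 n) (x⁻¹ * a⁻¹ * x * a) ≤
      ∑ x : G, ∑ a : G, ch (E2 n) x * ch (E2 n) (x⁻¹ * a⁻¹ * x * a) ^ 2 := by
    have h6 : ∑ x : G, ∑ a : G, ch (E2 n) x * ch (E2 n) (x⁻¹ * a⁻¹ * x * a) ^ 2 =
        ∑ x : G, ∑ a : G, ch (E2 n) x * ch (E1 n) (x⁻¹ * a⁻¹ * x * a) +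
        ∑ a : G, ∑ x : G, ch (E2 n) x * ch Q1 (x⁻¹ * a⁻¹ * x * a) := by
      rw [Finset.sum_comm (s := (Finset.univ : Finset G)) (t := Finset.univ)
        (f := fun a x => ch (E2 n) x * ch Q1 (x⁻¹ * a⁻¹ * x * a)), ← Finset.sum_add_distrib]
      refine Finset.sum_congr rfl fun x _ => ?_
      rw [← Finset.sum_add_distrib]
      refine Finset.sum_congr rfl fun a _ => ?_
      rw [hQ1c]
      ring
    rw [h6]
    have h7 : 0 ≤ ∑ a : G, ∑ x : G, ch (E2 n) x * ch Q1 (x⁻¹ * a⁻¹ * x * a) :=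
      Finset.sum_nonneg fun a _ => pos_comm' hE2 hQ1 a
    linarith
  have h6 : ((n : ℝ) - 1) * ∑ x : G, ∑ a : G, ch (E2 n) x * ch (E1 n) (x⁻¹ * a⁻¹ * x * a) =
      K * ∑ x : G, ch (E2 n) x * ch (E1 n) x ^ 2 := by
    rw [Finset.mul_sum, Finset.mul_sum]
    refine Finset.sum_congr rfl fun x _ => ?_
    rw [← Finset.mul_sum, ← trace_E1 (n := n) (by omega)]
    have h7 : (E1 n).trace * ∑ a : G, ch (E1 n) (x⁻¹ * a⁻¹ * x * a) =
        K * ch (E1 n) x⁻¹ * ch (E1 n) x := by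
      rw [← ch_star hE1 hS1 x⁻¹ x]
      congr 1
      apply Fintype.sum_equiv (Equiv.inv G)
      intro a
      simp only [Equiv.inv_apply, inv_inv, mul_assoc]
    rw [ch_inv hE1] at h7
    calc (E1 n).trace * (ch (E2 n) x * ∑ a : G, ch (E1 n) (x⁻¹ * a⁻¹ * x * a))
        = ch (E2 n) x * ((E1 n).trace * ∑ a : G, ch (E1 n) (x⁻¹ * a⁻¹ * x * a)) := by ring
      _ = K * (ch (E2 n) x * ch (E1 n) x ^ 2) := by rw [h7]; ring
  have h7 : K ≤ ∑ x : G, ch (E2 n) x * ch (E1 n) x ^ 2 := by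
    have h8 : ∑ x : G, ch (E2 n) x * ch (E1 n) x ^ 2 = ∑ x : G, ch Q2 x + K := by
      have h9 : K = ∑ _x : G, (1 : ℝ) := by
        rw [Finset.sum_const, Finset.card_univ, nsmul_eq_mul, mul_one]
      rw [h9, ← Finset.sum_add_distrib]
      refine Finset.sum_congr rfl fun x _ => ?_
      rw [hQ2c]
      ring
    have h9 := sum_ch_nonneg hQ2
    linarith
  calc K ^ 4 = K ^ 2 * (K * K) := by ring
    _ ≤ K ^ 2 * (K * ∑ x : G, ch (E2 n) x * ch (E1 n) x ^ 2) := by gcongr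
    _ = K ^ 2 * (((n : ℝ) - 1) * ∑ x : G, ∑ a : G,
          ch (E2 n) x * ch (E1 n) (x⁻¹ * a⁻¹ * x * a)) := by rw [h6]
    _ ≤ K ^ 2 * (((n : ℝ) - 1) * ∑ x : G, ∑ a : G,
          ch (E2 n) x * ch (E2 n) (x⁻¹ * a⁻¹ * x * a) ^ 2) := by gcongr
    _ = (E2 n).trace ^ 2 * ((n : ℝ) - 1) *
          ∑ s : Fin 4 → G, ch (E2 n) (FreeGroup.lift s ww) := by
        calc _ = ((n : ℝ) - 1) * (K ^ 2 * ∑ x : G, ∑ a : G,
              ch (E2 n) x * ch (E2 n) (x⁻¹ * a⁻¹ * x * a) ^ 2) := by ring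
          _ = _ := by rw [← h4]; ring

/-- the final inequality. -/
theorem final_ineq (x D S C F : ℝ) (hx : 5 ≤ x) (hD : D = x * (x - 3) / 2) (hF : 0 < F)
    (hlow : F ≤ D ^ 2 * (x - 1) * S) (hup : |1 / F * S| ≤ C * |(D ^ 3)⁻¹|)
    (hC : 2 * |C| + 3 < x) : False := by
  have hDpos : 0 < D := by
    rw [hD]
    have : (0 : ℝ) < x - 3 := by linarith
    positivity
  have hn1 : (0 : ℝ) < x - 1 := by linarith
  have hSpos : 0 < S := by
    by_contra hneg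
    push Not at hneg
    have h1 : D ^ 2 * (x - 1) * S ≤ 0 :=
      mul_nonpos_of_nonneg_of_nonpos (by positivity) hneg
    linarith
  rw [abs_of_nonneg (by positivity), abs_of_nonneg (by positivity)] at hup
  have h1 : 1 ≤ D ^ 2 * (x - 1) * (1 / F * S) := by
    calc (1 : ℝ) = F * (1 / F) := by field_simp
      _ ≤ (D ^ 2 * (x - 1) * S) * (1 / F) := by
        apply mul_le_mul_of_nonneg_right hlow
        positivity
      _ = _ := by ring
  have h2 : 1 ≤ D ^ 2 * (x - 1) * (C * (D ^ 3)⁻¹) :=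
    h1.trans (mul_le_mul_of_nonneg_left hup (by positivity))
  have h3 : D ^ 2 * (x - 1) * (C * (D ^ 3)⁻¹) = (x - 1) * C / D := by
    field_simp
  rw [h3, le_div_iff₀ hDpos, one_mul] at h2
  have h4 : (x - 1) * (x - 3) / 2 ≤ D := by
    rw [hD]
    have : (0 : ℝ) ≤ x - 3 := by linarith
    nlinarith
  have h5 : (x - 1) * (x - 3) / 2 ≤ (x - 1) * |C| :=
    h4.trans (h2.trans (mul_le_mul_of_nonneg_left (le_abs_self C) hn1.le))
  have h6 : (x - 3) / 2 ≤ |C| := by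
    have h7 : (x - 1) * ((x - 3) / 2) ≤ (x - 1) * |C| := by
      calc _ = (x - 1) * (x - 3) / 2 := by ring
        _ ≤ _ := h5
    exact le_of_mul_le_mul_left h7 hn1
  linarith

end Pool.Agent.H3.HP
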