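import Mathlib

/-!
# An element whose path crosses some edge exactly once is primitive

`F` is the free group on `X`, `H` a subgroup, `Ω = F ⧸ H`.  The group element `g` is read from
right to left, starting at a coset `ω`; the edge `(ω, y)` goes from `ω` to `y • ω`.
-/

set_option autoImplicit false

namespace Pool.Agent.H3.HP

section Skew

variable {X Ω L : Type} [Group L] [MulAction (FreeGroup X) Ω]

/-- the generator permutation of a labelling of the edges. -/
def skewGen (l : Ω → X → L) (y : X) : Equiv.Perm (Ω × L) where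
  toFun p := (FreeGroup.of y • p.1, l p.1 y * p.2)
  invFun p := ((FreeGroup.of y)⁻¹ • p.1, (l ((FreeGroup.of y)⁻¹ • p.1) y)⁻¹ * p.2)
  left_inv p := by
    ext
    · simp
    · simp
  right_inv p := by
    ext
    · simp
    · simp

/-- the homomorphism to permutations. -/
def skewHom (l : Ω → X → L) : FreeGroup X →* Equiv.Perm (Ω × L) := FreeGroup.lift (skewGen l)

/-- the label of the path starting at `ω` and reading `g`. -/
def lab (l : Ω → X → L) (ω : Ω) (g : FreeGroup X) : L := (skewHom l g (ω, 1)).2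

theorem skewHom_form (l : Ω → X → L) (g : FreeGroup X) :
    ∃ d : Ω → L, ∀ ω a, skewHom l g (ω, a) = (g • ω, d ω * a) := by
  induction g using FreeGroup.induction_on with
  | C1 => exact ⟨fun _ => 1, fun ω a => by simp⟩
  | of y => exact ⟨fun ω => l ω y, fun ω a => by simp [skewHom, skewGen]⟩
  | inv_of y h =>
    refine ⟨fun ω => (l ((FreeGroup.of y)⁻¹ • ω) y)⁻¹, fun ω a => ?_⟩
    rw [map_inv, Equiv.Perm.inv_eq_iff_eq]
    simp [skewHom, skewGen]
  | mul x y hx hy =>
    obtain ⟨d, hd⟩ := hx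
    obtain ⟨e, he⟩ := hy
    refine ⟨fun ω => d (y • ω) * e ω, fun ω a => ?_⟩
    rw [map_mul, Equiv.Perm.mul_apply, he, hd]
    simp [mul_smul, mul_assoc]

theorem skewHom_apply (l : Ω → X → L) (g : FreeGroup X) (ω : Ω) (a : L) :
    skewHom l g (ω, a) = (g • ω, lab l ω g * a) := by
  obtain ⟨d, hd⟩ := skewHom_form l g
  have h0 : lab l ω g = d ω := by
    unfold lab
    rw [hd]
    simp
  rw [hd, h0]

theorem lab_mul (l : Ω → X → L) (ω : Ω) (g h : FreeGroup X) :
    lab l ω (g * h) = lab l (h • ω) g * lab l ω h := by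
  unfold lab
  rw [map_mul, Equiv.Perm.mul_apply, skewHom_apply l h, skewHom_apply l g]
  simp [lab]

@[simp] theorem lab_one (l : Ω → X → L) (ω : Ω) : lab l ω 1 = 1 := by
  simp [lab]

@[simp] theorem lab_of (l : Ω → X → L) (ω : Ω) (y : X) : lab l ω (FreeGroup.of y) = l ω y := by
  simp [lab, skewHom, skewGen]

theorem lab_inv (l : Ω → X → L) (ω : Ω) (g : FreeGroup X) :
    lab l ω g⁻¹ = (lab l (g⁻¹ • ω) g)⁻¹ := by
  have h := lab_mul l ω g g⁻¹
  rw [mul_inv_cancel, lab_one] at h
  exact eq_inv_of_mul_eq_one_right h.symm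

end Skew

section Avoid

variable {X Ω : Type} [MulAction (FreeGroup X) Ω]

/-- `Av e ω g`: the element `g` is represented by a word whose path from `ω` avoids the
edge `e`. -/
inductive Av (e : Ω × X) : Ω → FreeGroup X → Prop
  | one (ω : Ω) : Av e ω 1
  | pos (ω : Ω) (g : FreeGroup X) (y : X) (hg : Av e ω g) (h : (g • ω, y) ≠ e) :
      Av e ω (FreeGroup.of y * g)
  | neg (ω : Ω) (g : FreeGroup X) (y : X) (hg : Av e ω g)
      (h : ((FreeGroup.of y)⁻¹ • g • ω, y) ≠ e) :
      Av e ω ((FreeGroup.of y)⁻¹ * g)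

theorem Av.mul {e : Ω × X} {ω : Ω} {g h : FreeGroup X} (hg : Av e ω g) (hh : Av e (g • ω) h) :
    Av e ω (h * g) := by
  generalize hρ : g • ω = ρ at hh
  induction hh with
  | one => rw [one_mul]; exact hg
  | pos k y _ hne ih =>
    rw [mul_assoc]
    refine Av.pos ω _ y ih ?_
    rw [mul_smul, hρ]
    exact hne
  | neg k y _ hne ih =>
    rw [mul_assoc]
    refine Av.neg ω _ y ih ?_
    rw [mul_smul k g, hρ]
    exact hne

theorem Av.inv {e : Ω × X} {ω : Ω} {g : FreeGroup X} (hg : Av e ω g) : Av e (g • ω) g⁻¹ := by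
  induction hg with
  | one => rw [inv_one]; exact Av.one _
  | pos k y _ hne ih =>
    rw [mul_inv_rev]
    have h1 : Av e ((FreeGroup.of y * k) • ω) ((FreeGroup.of y)⁻¹ * 1) := by
      refine Av.neg _ 1 y (Av.one _) ?_
      rw [one_smul, mul_smul, inv_smul_smul]
      exact hne
    rw [mul_one] at h1
    refine Av.mul h1 ?_
    rw [mul_smul, inv_smul_smul]
    exact ih
  | neg k y _ hne ih =>
    rw [mul_inv_rev, inv_inv]
    have h1 : Av e (((FreeGroup.of y)⁻¹ * k) • ω) (FreeGroup.of y * 1) := by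
      refine Av.pos _ 1 y (Av.one _) ?_
      rw [one_smul, mul_smul]
      exact hne
    rw [mul_one] at h1
    refine Av.mul h1 ?_
    rw [mul_smul, smul_inv_smul]
    exact ih

end Avoid

section Cut

variable {X : Type}

/-- **Cut lemma**: if the path of `w ∈ H` crosses some edge exactly once, then `w` belongs to
a basis of `H`. -/
theorem primitive_of_cross_once (H : Subgroup (FreeGroup X)) (w : FreeGroup X) (hw : w ∈ H)
    (u v : FreeGroup X) (y₀ : X) (hwe : w = u * FreeGroup.of y₀ * v)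
    (hv : Av ((v • ((1 : FreeGroup X) : FreeGroup X ⧸ H)), y₀)
      ((1 : FreeGroup X) : FreeGroup X ⧸ H) v)
    (hu : Av ((v • ((1 : FreeGroup X) : FreeGroup X ⧸ H)), y₀)
      (FreeGroup.of y₀ • v • ((1 : FreeGroup X) : FreeGroup X ⧸ H)) u) :
    ∃ (ι : Type) (c : FreeGroupBasis ι H) (i : ι), ((c i : H) : FreeGroup X) = w := by
  classical
  -- names
  let Ω := FreeGroup X ⧸ H
  let ω₀ : Ω := ((1 : FreeGroup X) : FreeGroup X ⧸ H)
  let α : Ω := v • ω₀
  let e : Ω × X := (α, y₀)
  have hfix : ∀ g : FreeGroup X, g ∈ H → g • ω₀ = ω₀ := by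
    intro g hg
    show ((g * 1 : FreeGroup X) : FreeGroup X ⧸ H) = ((1 : FreeGroup X) : FreeGroup X ⧸ H)
    rw [QuotientGroup.eq, mul_one, mul_one]
    exact H.inv_mem hg
  have hmemH : ∀ g : FreeGroup X, g • ω₀ = ω₀ → g ∈ H := by
    intro g hg
    have h1 : ((g * 1 : FreeGroup X) : FreeGroup X ⧸ H) = ((1 : FreeGroup X) : FreeGroup X ⧸ H) :=
      hg
    rw [QuotientGroup.eq, mul_one, mul_one] at h1
    exact (inv_mem_iff.1 h1)
  have hv' : Av e ω₀ v := hv
  have hu' : Av e (FreeGroup.of y₀ • α) u := hu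
  have huω : u • FreeGroup.of y₀ • α = ω₀ := by
    have h1 := hfix w hw
    rw [hwe, mul_smul, mul_smul] at h1
    exact h1
  have hui : Av e ω₀ u⁻¹ := by
    have := hu'.inv
    rwa [huω] at this
  -- every vertex is reached avoiding `e`
  have hreach : ∀ g : FreeGroup X, ∃ p, p • ω₀ = g • ω₀ ∧ Av e ω₀ p := by
    intro g
    have key : ∀ g : FreeGroup X, ∀ h : FreeGroup X, (∃ p, p • ω₀ = h • ω₀ ∧ Av e ω₀ p) →
        ∃ p, p • ω₀ = (g * h) • ω₀ ∧ Av e ω₀ p := by
      intro g
      induction g using FreeGroup.induction_on with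
      | C1 => intro h hp; rwa [one_mul]
      | of y =>
        rintro h ⟨p, hp, hpA⟩
        by_cases hne : (p • ω₀, y) = e
        · refine ⟨u⁻¹, ?_, hui⟩
          have h1 : p • ω₀ = α := congrArg Prod.fst hne
          have h2 : y = y₀ := congrArg Prod.snd hne
          rw [mul_smul, ← hp, h1, h2, inv_smul_eq_iff, huω]
        · exact ⟨FreeGroup.of y * p, by rw [mul_smul, hp, mul_smul], Av.pos _ _ _ hpA hne⟩
      | inv_of y _ =>
        rintro h ⟨p, hp, hpA⟩
        by_cases hne : ((FreeGroup.of y)⁻¹ • p • ω₀, y) = e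
        · refine ⟨v, ?_, hv'⟩
          have h1 : (FreeGroup.of y)⁻¹ • p • ω₀ = α := congrArg Prod.fst hne
          rw [mul_smul, ← hp, h1]
        · exact ⟨(FreeGroup.of y)⁻¹ * p, by rw [mul_smul, hp, mul_smul], Av.neg _ _ _ hpA hne⟩
      | mul a b ha hb =>
        intro h hp
        rw [mul_assoc]
        exact ha _ (hb _ hp)
    have := key g 1 ⟨1, rfl, Av.one _⟩
    rwa [mul_one] at this
  have hreach2 : ∀ ω : Ω, ∃ p : FreeGroup X, p • ω₀ = ω ∧ Av e ω₀ p ∧ (ω = ω₀ → p = 1) := by
    intro ω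
    by_cases h : ω = ω₀
    · exact ⟨1, by rw [one_smul, h], Av.one _, fun _ => rfl⟩
    · obtain ⟨g, rfl⟩ := QuotientGroup.mk_surjective ω
      obtain ⟨p, hp, hpA⟩ := hreach g
      refine ⟨p, ?_, hpA, fun h' => absurd h' h⟩
      rw [hp]
      show ((g * 1 : FreeGroup X) : FreeGroup X ⧸ H) = _
      rw [mul_one]
  choose p hp hpA hp1 using hreach2
  have hp0 : p ω₀ = 1 := hp1 ω₀ rfl
  -- the subgroup of elements avoiding `e`
  let K : Subgroup (FreeGroup X) :=
    { carrier := {g | g • ω₀ = ω₀ ∧ Av e ω₀ g}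
      one_mem' := ⟨one_smul _ _, Av.one _⟩
      mul_mem' := by
        rintro a b ⟨ha, ha'⟩ ⟨hb, hb'⟩
        refine ⟨by rw [mul_smul, hb, ha], Av.mul hb' ?_⟩
        rw [hb]
        exact ha'
      inv_mem' := by
        rintro a ⟨ha, ha'⟩
        refine ⟨by rw [inv_smul_eq_iff, ha], ?_⟩
        have := ha'.inv
        rwa [ha] at this }
  have hKH : ∀ k ∈ K, k ∈ H := fun k hk => hmemH k hk.1
  -- loops
  have hloop : ∀ (ω : Ω) (g : FreeGroup X), Av e ω g → (p (g • ω))⁻¹ * g * p ω ∈ K := by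
    intro ω g hg
    refine ⟨?_, ?_⟩
    · rw [mul_smul, mul_smul, hp, inv_smul_eq_iff, hp]
    · rw [mul_assoc]
      have h1 : Av e ω₀ (g * p ω) := by
        refine Av.mul (hpA ω) ?_
        rw [hp]
        exact hg
      refine Av.mul h1 ?_
      have h2 : (g * p ω) • ω₀ = g • ω := by rw [mul_smul, hp]
      rw [h2]
      have h3 := (hpA (g • ω)).inv
      rwa [hp] at h3
  let I := IsFreeGroup.Generators K
  let κ : FreeGroupBasis I K := IsFreeGroup.basis K
  let L := FreeGroup (Option I)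
  let kemb : K →* L := κ.lift (fun i => FreeGroup.of (some i))
  have hkemb : ∀ i, kemb (κ i) = FreeGroup.of (some i) := fun i => by simp [kemb]
  let π : L →* H := FreeGroup.lift (fun o => Option.elim o (⟨w, hw⟩ : H)
    (fun i => ⟨(κ i : K), hKH _ (κ i).2⟩))
  have hπ0 : π (FreeGroup.of none) = ⟨w, hw⟩ := FreeGroup.lift_apply_of
  have hπ1 : ∀ i, π (FreeGroup.of (some i)) = ⟨(κ i : K), hKH _ (κ i).2⟩ := fun i =>
    FreeGroup.lift_apply_of
  have hπk : ∀ k : K, ((π (kemb k) : H) : FreeGroup X) = k := by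
    intro k
    have h1 : (H.subtype.comp (π.comp kemb)) = K.subtype := by
      apply κ.ext_hom
      intro i
      show ((π (kemb (κ i)) : H) : FreeGroup X) = (κ i : K)
      rw [hkemb, hπ1]
    exact DFunLike.congr_fun h1 k
  -- the two correction factors
  have hk1 : (p (FreeGroup.of y₀ • α))⁻¹ * u⁻¹ ∈ K := by
    have h1 := hloop (FreeGroup.of y₀ • α) u hu'
    rw [huω, hp0, inv_one, one_mul] at h1
    have h2 := K.inv_mem h1
    rwa [mul_inv_rev] at h2
  have hk2 : v⁻¹ * p α ∈ K := by
    have h1 := hloop ω₀ v hv'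
    rw [hp0, mul_one] at h1
    have h2 := K.inv_mem h1
    rwa [mul_inv_rev, inv_inv] at h2
  let l : Ω → X → L := fun ω y =>
    if h : (ω, y) = e then kemb ⟨_, hk1⟩ * FreeGroup.of none * kemb ⟨_, hk2⟩
    else kemb ⟨(p (FreeGroup.of y • ω))⁻¹ * FreeGroup.of y * p ω, hloop ω (FreeGroup.of y) (by
      have := Av.pos (e := e) ω 1 y (Av.one _) (by rwa [one_smul])
      rwa [mul_one] at this)⟩
  -- claim 1: the label maps to the true element
  have hπl : ∀ ω y, ((π (l ω y) : H) : FreeGroup X) = (p (FreeGroup.of y • ω))⁻¹ * FreeGroup.of y * p ω := by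
    intro ω y
    by_cases h : (ω, y) = e
    · have h1 : ω = α := congrArg Prod.fst h
      have h2 : y = y₀ := congrArg Prod.snd h
      simp only [l, dif_pos h, map_mul, Subgroup.coe_mul, hπk, hπ0]
      rw [h1, h2, hwe]
      group
    · simp only [l, dif_neg h, hπk]
  have claim1 : ∀ (g : FreeGroup X) (ω : Ω),
      ((π (lab l ω g) : H) : FreeGroup X) = (p (g • ω))⁻¹ * g * p ω := by
    intro g
    induction g using FreeGroup.induction_on with
    | C1 => intro ω; simp
    | of y => intro ω; rw [lab_of]; exact hπl ω y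
    | inv_of y h =>
      intro ω
      rw [lab_inv, map_inv, Subgroup.coe_inv, h, smul_inv_smul]
      group
    | mul a b ha hb =>
      intro ω
      rw [lab_mul, map_mul, Subgroup.coe_mul, ha, hb, mul_smul]
      group
  -- claim 2: paths avoiding `e`
  have claim2 : ∀ (ω : Ω) (g : FreeGroup X) (hg : Av e ω g),
      lab l ω g = kemb ⟨(p (g • ω))⁻¹ * g * p ω, hloop ω g hg⟩ := by
    intro ω g hg
    induction hg with
    | one =>
      rw [lab_one, ← map_one kemb]
      congr 1
      apply Subtype.ext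
      simp
    | pos g y hg h ih =>
      rw [lab_mul, ih, lab_of]
      have h1 : ¬ (g • ω, y) = e := h
      simp only [l, dif_neg h1]
      rw [← map_mul]
      congr 1
      apply Subtype.ext
      simp only [Subgroup.coe_mul, mul_smul]
      group
    | neg g y hg h ih =>
      rw [lab_mul, ih, lab_inv, lab_of]
      have h1 : ¬ ((FreeGroup.of y)⁻¹ • g • ω, y) = e := h
      simp only [l, dif_neg h1]
      rw [← map_inv, ← map_mul]
      congr 1
      apply Subtype.ext
      simp only [Subgroup.coe_mul, Subgroup.coe_inv, mul_smul, smul_inv_smul]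
      group
  -- the section
  let s : H →* L :=
    { toFun := fun h => lab l ω₀ (h : FreeGroup X)
      map_one' := by simp
      map_mul' := by
        intro a b
        rw [Subgroup.coe_mul, lab_mul, hfix _ b.2] }
  have hs : ∀ h : H, s h = lab l ω₀ (h : FreeGroup X) := fun h => rfl
  have hπs : ∀ h : H, π (s h) = h := by
    intro h
    apply Subtype.ext
    rw [hs, claim1, hfix _ h.2, hp0]
    simp
  have hsw : s ⟨w, hw⟩ = FreeGroup.of none := by
    rw [hs]
    show lab l ω₀ w = _
    rw [hwe, lab_mul, lab_mul, lab_of]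
    have h1 : l (v • ω₀) y₀ = kemb ⟨_, hk1⟩ * FreeGroup.of none * kemb ⟨_, hk2⟩ := by
      have h2 : (v • ω₀, y₀) = e := rfl
      simp only [l, dif_pos h2]
    rw [h1, claim2 _ _ hv', claim2 _ _ hu']
    have h3 : kemb ⟨_, hloop _ _ hu'⟩ * kemb ⟨_, hk1⟩ = 1 := by
      rw [← map_mul, ← map_one kemb]
      congr 1
      apply Subtype.ext
      simp only [Subgroup.coe_mul, Subgroup.coe_one]
      rw [huω, hp0]
      group
    have h4 : kemb ⟨_, hk2⟩ * kemb ⟨_, hloop _ _ hv'⟩ = 1 := by
      rw [← map_mul, ← map_one kemb]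
      congr 1
      apply Subtype.ext
      simp only [Subgroup.coe_mul, Subgroup.coe_one]
      rw [hp0]
      show v⁻¹ * p α * ((p α)⁻¹ * v * 1) = 1
      group
    calc _ = (kemb ⟨_, hloop _ _ hu'⟩ * kemb ⟨_, hk1⟩) * FreeGroup.of none *
          (kemb ⟨_, hk2⟩ * kemb ⟨_, hloop _ _ hv'⟩) := by
            simp only [mul_assoc]
      _ = FreeGroup.of none := by rw [h3, h4, one_mul, mul_one]
  have hsπ : ∀ x : L, s (π x) = x := by
    have h1 : s.comp π = MonoidHom.id L := by
      apply FreeGroup.ext_hom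
      intro o
      cases o with
      | none =>
        show s (π (FreeGroup.of none)) = FreeGroup.of none
        rw [hπ0, hsw]
      | some i =>
        show s (π (FreeGroup.of (some i))) = FreeGroup.of (some i)
        rw [hπ1, hs]
        show lab l ω₀ ((κ i : K) : FreeGroup X) = _
        rw [claim2 _ _ (κ i).2.2, ← hkemb]
        congr 1
        apply Subtype.ext
        show (p (((κ i : K) : FreeGroup X) • ω₀))⁻¹ * ((κ i : K) : FreeGroup X) * p ω₀ = _
        rw [(κ i).2.1, hp0]
        simp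
    intro x
    exact DFunLike.congr_fun h1 x
  let E : H ≃* L :=
    { toFun := s
      invFun := π
      left_inv := hπs
      right_inv := hsπ
      map_mul' := s.map_mul }
  refine ⟨Option I, FreeGroupBasis.ofRepr E, none, ?_⟩
  show (((E.symm (FreeGroup.of none)) : H) : FreeGroup X) = w
  show ((π (FreeGroup.of none) : H) : FreeGroup X) = w
  rw [hπ0]

end Cut

end Pool.Agent.H3.HP
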