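import Mathlib

/-!
# The coefficient formula for the character of `(n - 2, 2)`: power sums
-/

set_option autoImplicit false

open Finset

namespace Pool.Agent.H3.HP

section PowerSums

variable {n : ℕ}

/-- the product of power sums attached to a permutation. -/
noncomputable def PP (σ : Equiv.Perm (Fin n)) : MvPolynomial (Fin n) ℤ :=
  (σ.cycleType.map (fun c => MvPolynomial.psum (Fin n) ℤ c)).prod *
    MvPolynomial.psum (Fin n) ℤ 1 ^ (Finset.univ.filter (fun x => σ x = x)).card

theorem psum_isHomogeneous (c : ℕ) : (MvPolynomial.psum (Fin n) ℤ c).IsHomogeneous c := by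
  rw [MvPolynomial.psum]
  apply MvPolynomial.IsHomogeneous.sum
  intro i _
  have := (MvPolynomial.isHomogeneous_X ℤ i).pow c
  rwa [one_mul] at this

theorem multiset_prod_isHomogeneous (s : Multiset ℕ) :
    (s.map (fun c => MvPolynomial.psum (Fin n) ℤ c)).prod.IsHomogeneous s.sum := by
  induction s using Multiset.induction_on with
  | empty => simpa using MvPolynomial.isHomogeneous_one (Fin n) ℤ
  | cons a s ih =>
    rw [Multiset.map_cons, Multiset.prod_cons, Multiset.sum_cons]
    exact (psum_isHomogeneous a).mul ih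

theorem card_fixed (σ : Equiv.Perm (Fin n)) :
    σ.cycleType.sum + (Finset.univ.filter (fun x => σ x = x)).card = n := by
  rw [Equiv.Perm.sum_cycleType]
  have h : (Finset.univ.filter (fun x => σ x = x)) = σ.supportᶜ := by
    ext x
    simp
  rw [h, Finset.card_compl, Fintype.card_fin]
  have := Finset.card_le_univ σ.support
  rw [Fintype.card_fin] at this
  omega

theorem PP_isHomogeneous (σ : Equiv.Perm (Fin n)) : (PP σ).IsHomogeneous n := by
  have h := (multiset_prod_isHomogeneous (n := n) σ.cycleType).mul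
    ((psum_isHomogeneous (n := n) 1).pow (Finset.univ.filter (fun x => σ x = x)).card)
  rw [one_mul, card_fixed] at h
  exact h

/-- the specialization `X₀ = 1`, `X₁ = Y`, the other variables zero. -/
noncomputable def ev (n : ℕ) : MvPolynomial (Fin n) ℤ →+* Polynomial ℤ :=
  MvPolynomial.eval₂Hom (Polynomial.C) (fun i : Fin n =>
    if (i : ℕ) = 0 then 1 else if (i : ℕ) = 1 then Polynomial.X else 0)

theorem ev_X (i : Fin n) : ev n (MvPolynomial.X i) =
    if (i : ℕ) = 0 then 1 else if (i : ℕ) = 1 then Polynomial.X else 0 := by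
  simp [ev]

theorem ev_psum (hn : 2 ≤ n) (c : ℕ) (hc : c ≠ 0) :
    ev n (MvPolynomial.psum (Fin n) ℤ c) = 1 + Polynomial.X ^ c := by
  rw [MvPolynomial.psum, map_sum]
  simp only [map_pow, ev_X]
  have h0 : (⟨0, by omega⟩ : Fin n) ≠ ⟨1, by omega⟩ := by simp
  rw [← Finset.sum_subset (Finset.subset_univ ({⟨0, by omega⟩, ⟨1, by omega⟩} : Finset (Fin n))),
    Finset.sum_pair h0]
  · simp
  · intro i _ hi
    simp only [Finset.mem_insert, Finset.mem_singleton, not_or, Fin.ext_iff] at hi
    simp [hi.1, hi.2, hc]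

theorem ev_PP (hn : 2 ≤ n) (σ : Equiv.Perm (Fin n)) :
    ev n (PP σ) = (σ.cycleType.map (fun c => (1 + Polynomial.X ^ c : Polynomial ℤ))).prod *
      (1 + Polynomial.X) ^ (Finset.univ.filter (fun x => σ x = x)).card := by
  rw [PP, map_mul, map_pow, ev_psum hn 1 one_ne_zero, pow_one, map_multiset_prod,
    Multiset.map_map]
  congr 2
  apply Multiset.map_congr rfl
  intro c hc
  exact ev_psum hn c (by have := Equiv.Perm.two_le_of_mem_cycleType hc; omega)

theorem coeff_multiset (s : Multiset ℕ) (hs : ∀ c ∈ s, 2 ≤ c) :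
    ((s.map (fun c => (1 + Polynomial.X ^ c : Polynomial ℤ))).prod.coeff 0 = 1) ∧
    ((s.map (fun c => (1 + Polynomial.X ^ c : Polynomial ℤ))).prod.coeff 1 = 0) ∧
    ((s.map (fun c => (1 + Polynomial.X ^ c : Polynomial ℤ))).prod.coeff 2 = s.count 2) := by
  induction s using Multiset.induction_on with
  | empty =>
    refine ⟨by simp, ?_, ?_⟩
    · simp [Polynomial.coeff_one]
    · simp [Polynomial.coeff_one]
  | cons a s ih =>
    obtain ⟨h0, h1, h2⟩ := ih (fun c hc => hs c (Multiset.mem_cons_of_mem hc))
    have ha : 2 ≤ a := hs a (Multiset.mem_cons_self a s)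
    rw [Multiset.map_cons, Multiset.prod_cons, add_mul, one_mul, mul_comm (Polynomial.X ^ a)]
    refine ⟨?_, ?_, ?_⟩
    · rw [Polynomial.coeff_add, h0, Polynomial.coeff_mul_X_pow']
      simp only [show ¬ a ≤ 0 by omega, if_false, add_zero]
    · rw [Polynomial.coeff_add, h1, Polynomial.coeff_mul_X_pow']
      simp only [show ¬ a ≤ 1 by omega, if_false, add_zero]
    · rw [Polynomial.coeff_add, h2, Polynomial.coeff_mul_X_pow', Multiset.count_cons]
      by_cases h : a = 2
      · subst h
        simp [h0]
      · simp only [show ¬ a ≤ 2 by omega, if_false, add_zero, if_neg (Ne.symm h)]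

theorem coeff_ev_PP_one (hn : 2 ≤ n) (σ : Equiv.Perm (Fin n)) :
    (ev n (PP σ)).coeff 1 = ((Finset.univ.filter (fun x => σ x = x)).card : ℤ) := by
  obtain ⟨h0, h1, h2⟩ := coeff_multiset σ.cycleType
    (fun c hc => Equiv.Perm.two_le_of_mem_cycleType hc)
  rw [ev_PP hn, Polynomial.coeff_mul]
  simp only [Finset.Nat.antidiagonal_succ, Finset.Nat.antidiagonal_zero]
  simp only [Finset.sum_cons, Finset.sum_map, Finset.sum_singleton, Function.Embedding.coeFn_mk,
    Function.Embedding.prodMap, Prod.map, Polynomial.coeff_one_add_X_pow]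
  simp [h0, h1]

theorem coeff_ev_PP_two (hn : 2 ≤ n) (σ : Equiv.Perm (Fin n)) :
    (ev n (PP σ)).coeff 2 = (((Finset.univ.filter (fun x => σ x = x)).card.choose 2 : ℕ) : ℤ) +
      (σ.cycleType.count 2 : ℤ) := by
  obtain ⟨h0, h1, h2⟩ := coeff_multiset σ.cycleType
    (fun c hc => Equiv.Perm.two_le_of_mem_cycleType hc)
  rw [ev_PP hn, Polynomial.coeff_mul]
  simp only [Finset.Nat.antidiagonal_succ, Finset.Nat.antidiagonal_zero]
  simp only [Finset.sum_cons, Finset.sum_map, Finset.sum_singleton, Function.Embedding.coeFn_mk,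
    Function.Embedding.prodMap, Prod.map, Polynomial.coeff_one_add_X_pow]
  simp [h0, h1, h2]

/-- two-variable coefficients of a homogeneous polynomial. -/
theorem coeff_eq_ev (hn : 2 ≤ n) (P : MvPolynomial (Fin n) ℤ) (hP : P.IsHomogeneous n) (k : ℕ)
    (hk : k ≤ n) :
    MvPolynomial.coeff (Finsupp.single (⟨0, by omega⟩ : Fin n) (n - k) +
      Finsupp.single (⟨1, by omega⟩ : Fin n) k) P = (ev n P).coeff k := by
  classical
  set z0 : Fin n := ⟨0, by omega⟩ with hz0
  set z1 : Fin n := ⟨1, by omega⟩ with hz1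
  have h01 : z0 ≠ z1 := by simp [hz0, hz1]
  set m0 : Fin n →₀ ℕ := Finsupp.single z0 (n - k) + Finsupp.single z1 k with hm0
  have h1 : ev n P = ∑ m ∈ P.support, Polynomial.C (P.coeff m) *
      ∏ i : Fin n, (if (i : ℕ) = 0 then (1 : Polynomial ℤ) else if (i : ℕ) = 1 then
        Polynomial.X else 0) ^ (m i) := by
    rw [ev, MvPolynomial.coe_eval₂Hom, MvPolynomial.eval₂_eq']
  have h2 : ∀ m : Fin n →₀ ℕ, (∀ i : Fin n, 2 ≤ (i : ℕ) → m i = 0) →
      ∏ i : Fin n, (if (i : ℕ) = 0 then (1 : Polynomial ℤ) else if (i : ℕ) = 1 then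
        Polynomial.X else 0) ^ (m i) = Polynomial.X ^ (m z1) := by
    intro m hm
    rw [Finset.prod_eq_single z1]
    · simp [hz1]
    · intro i _ hi
      by_cases h : (i : ℕ) = 0
      · simp [h]
      · have h' : 2 ≤ (i : ℕ) := by
          have : (i : ℕ) ≠ 1 := fun h'' => hi (Fin.ext h'')
          omega
        rw [hm i h', pow_zero]
    · intro h
      exact absurd (Finset.mem_univ _) h
  have h3 : ∀ m : Fin n →₀ ℕ, ¬ (∀ i : Fin n, 2 ≤ (i : ℕ) → m i = 0) →
      ∏ i : Fin n, (if (i : ℕ) = 0 then (1 : Polynomial ℤ) else if (i : ℕ) = 1 then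
        Polynomial.X else 0) ^ (m i) = 0 := by
    intro m hm
    push Not at hm
    obtain ⟨i, hi, hmi⟩ := hm
    apply Finset.prod_eq_zero (Finset.mem_univ i)
    rw [if_neg (by omega), if_neg (by omega), zero_pow hmi]
  rw [h1, Polynomial.finsetSum_coeff]
  rw [Finset.sum_eq_single m0]
  · rw [h2 m0 (by
      intro i hi
      have e0 : z0 ≠ i := by
        intro h
        rw [← h] at hi
        simp [hz0] at hi
      have e1 : z1 ≠ i := by
        intro h
        rw [← h] at hi
        simp [hz1] at hi
      rw [hm0, Finsupp.add_apply, Finsupp.single_apply, Finsupp.single_apply, if_neg e0,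
        if_neg e1, add_zero])]
    have : m0 z1 = k := by
      rw [hm0, Finsupp.add_apply, Finsupp.single_apply, Finsupp.single_apply, if_neg h01,
        if_pos rfl, zero_add]
    rw [this, Polynomial.coeff_C_mul, Polynomial.coeff_X_pow, if_pos rfl, mul_one]
  · intro m hm hne
    by_cases h : ∀ i : Fin n, 2 ≤ (i : ℕ) → m i = 0
    · rw [h2 m h, Polynomial.coeff_C_mul, Polynomial.coeff_X_pow]
      have hk' : ¬ k = m z1 := by
        intro hk1
        apply hne
        have hdeg : m.degree = n := by
          have := hP (MvPolynomial.mem_support_iff.1 hm)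
          refine Eq.trans ?_ this
          rw [Finsupp.degree_eq_weight_one]
          rfl
        have hsum : m.degree = m z0 + m z1 := by
          rw [Finsupp.degree_eq_sum]
          rw [← Finset.sum_subset (Finset.subset_univ ({z0, z1} : Finset (Fin n))),
            Finset.sum_pair h01]
          intro i _ hi
          simp only [Finset.mem_insert, Finset.mem_singleton, not_or] at hi
          apply h
          have e0 : (i : ℕ) ≠ 0 := fun h' => hi.1 (Fin.ext h')
          have e1 : (i : ℕ) ≠ 1 := fun h' => hi.2 (Fin.ext h')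
          omega
        ext i
        rw [hm0, Finsupp.add_apply, Finsupp.single_apply, Finsupp.single_apply]
        by_cases e0 : z0 = i
        · subst e0
          rw [if_pos rfl, if_neg h01.symm]
          omega
        · by_cases e1 : z1 = i
          · subst e1
            rw [if_neg h01, if_pos rfl, hk1, zero_add]
          · rw [if_neg e0, if_neg e1]
            apply h
            have e0' : (i : ℕ) ≠ 0 := fun h' => e0 (Fin.ext h'.symm)
            have e1' : (i : ℕ) ≠ 1 := fun h' => e1 (Fin.ext h'.symm)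
            omega
      rw [if_neg hk', mul_zero]
    · rw [h3 m h, mul_zero, Polynomial.coeff_zero]
  · intro h
    rw [MvPolynomial.notMem_support_iff.1 h]
    simp

end PowerSums

end Pool.Agent.H3.HP
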