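import Pool.Agent.H3.HP.Frob1

/-!
# The coefficient formula for the character of `(n - 2, 2)`: the determinant
-/

set_option autoImplicit false

open Finset

namespace Pool.Agent.H3.HP

variable {n : ℕ}

/-- the exponents of the `τ`-th term of the Vandermonde determinant. -/
noncomputable def ee (τ : Equiv.Perm (Fin n)) : Fin n →₀ ℕ :=
  Finsupp.equivFunOnFinite.symm (fun j => (τ (Fin.rev j) : ℕ))

theorem ee_apply (τ : Equiv.Perm (Fin n)) (j : Fin n) : ee τ j = (τ (Fin.rev j) : ℕ) := rfl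

theorem delta_eq :
    (∏ i : Fin n, ∏ j : Fin n,
      (if i < j then (MvPolynomial.X i - MvPolynomial.X j : MvPolynomial (Fin n) ℤ) else 1)) =
    ∑ τ : Equiv.Perm (Fin n), (Equiv.Perm.sign τ : ℤ) • MvPolynomial.monomial (ee τ) (1 : ℤ) := by
  have h1 : (∏ i : Fin n, ∏ j : Fin n,
      (if i < j then (MvPolynomial.X i - MvPolynomial.X j : MvPolynomial (Fin n) ℤ) else 1)) =
      (Matrix.vandermonde (fun i : Fin n =>
        (MvPolynomial.X (Fin.rev i) : MvPolynomial (Fin n) ℤ))).det := by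
    rw [Matrix.det_vandermonde]
    have h2 : ∀ i : Fin n, ∏ j ∈ Finset.Ioi i, ((MvPolynomial.X (Fin.rev j) :
        MvPolynomial (Fin n) ℤ) - MvPolynomial.X (Fin.rev i)) =
        ∏ j : Fin n, (if Fin.rev j < Fin.rev i then ((MvPolynomial.X (Fin.rev j) :
        MvPolynomial (Fin n) ℤ) - MvPolynomial.X (Fin.rev i)) else 1) := by
      intro i
      rw [Finset.prod_ite, Finset.prod_const_one, mul_one]
      refine Finset.prod_congr ?_ fun _ _ => rfl
      ext j
      simp [Fin.rev_lt_rev]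
    simp only [h2]
    rw [Finset.prod_comm]
    rw [← Equiv.prod_comp Fin.revPerm]
    refine Finset.prod_congr rfl fun i _ => ?_
    rw [← Equiv.prod_comp Fin.revPerm]
    rfl
  rw [h1, ← Matrix.det_transpose, Matrix.det_apply]
  refine Finset.sum_congr rfl fun τ _ => ?_
  have h3 : ∏ i : Fin n, (Matrix.vandermonde (fun i : Fin n =>
      (MvPolynomial.X (Fin.rev i) : MvPolynomial (Fin n) ℤ))).transpose (τ i) i =
      MvPolynomial.monomial (ee τ) (1 : ℤ) := by
    simp only [Matrix.transpose_apply, Matrix.vandermonde_apply]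
    rw [← Equiv.prod_comp Fin.revPerm]
    simp only [Fin.revPerm_apply, Fin.rev_rev]
    rw [MvPolynomial.monomial_eq, MvPolynomial.C_1, one_mul, Finsupp.prod_fintype _ _ (by simp)]
    rfl
  rw [h3]
  rfl

/-- the exponents `λ⁺(n) + δ`. -/
noncomputable def TT (n : ℕ) : Fin n →₀ ℕ :=
  Finsupp.equivFunOnFinite.symm (fun j =>
    if (j : ℕ) = 0 then 2 * n - 3 else if (j : ℕ) = 1 then n else n - 1 - (j : ℕ))

theorem TT_apply (j : Fin n) : TT n j =
    if (j : ℕ) = 0 then 2 * n - 3 else if (j : ℕ) = 1 then n else n - 1 - (j : ℕ) := rfl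

theorem perm_cases (hn : 3 ≤ n) (τ : Equiv.Perm (Fin n)) (h : ee τ ≤ TT n) :
    τ = 1 ∨ τ = Equiv.swap ⟨n - 2, by omega⟩ ⟨n - 1, by omega⟩ := by
  have h1 : ∀ i : Fin n, (i : ℕ) ≤ n - 3 → (τ i : ℕ) ≤ i := by
    intro i hi
    have h2 := h (Fin.rev i)
    rw [ee_apply, TT_apply, Fin.rev_rev, Fin.val_rev] at h2
    rw [if_neg (by omega), if_neg (by omega)] at h2
    have := i.2
    omega
  have h2 : ∀ k : ℕ, ∀ i : Fin n, (i : ℕ) = k → k ≤ n - 3 → τ i = i := by
    intro k
    induction k using Nat.strong_induction_on with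
    | _ k ih =>
      intro i hik hk
      by_contra hne
      have h3 := h1 i (by omega)
      have h4 : (τ i : ℕ) < i := lt_of_le_of_ne h3 (fun h' => hne (Fin.ext h'))
      have h5 := ih (τ i) (by omega) (τ i) rfl (by omega)
      exact hne (τ.injective h5)
  have h3 : ∀ i : Fin n, (i : ℕ) ≤ n - 3 → τ i = i := fun i hi => h2 i i rfl hi
  set a : Fin n := ⟨n - 2, by omega⟩ with ha
  set b : Fin n := ⟨n - 1, by omega⟩ with hb
  have hab : a ≠ b := by simp [ha, hb]; omega
  have hcase : ∀ i : Fin n, (i : ℕ) ≤ n - 3 ∨ i = a ∨ i = b := by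
    intro i
    have := i.2
    by_cases h : (i : ℕ) ≤ n - 3
    · exact Or.inl h
    · right
      by_cases h' : (i : ℕ) = n - 2
      · exact Or.inl (Fin.ext h')
      · exact Or.inr (Fin.ext (by simp [hb]; omega))
  have ha3 : ¬ (a : ℕ) ≤ n - 3 := by simp [ha]; omega
  have hb3 : ¬ (b : ℕ) ≤ n - 3 := by simp [hb]; omega
  have hout : ∀ i : Fin n, ¬ (i : ℕ) ≤ n - 3 → ¬ (τ i : ℕ) ≤ n - 3 := by
    intro i hi hτ
    have := h3 _ hτ
    have h4 := τ.injective this
    rw [h4] at hτ
    exact hi hτ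
  rcases hcase (τ a) with h4 | h4 | h4
  · exact absurd h4 (hout a ha3)
  · left
    have h5 : τ b = b := by
      rcases hcase (τ b) with h6 | h6 | h6
      · exact absurd h6 (hout b hb3)
      · exact absurd (τ.injective (h4.trans h6.symm)) hab
      · exact h6
    ext i
    rcases hcase i with h6 | rfl | rfl
    · rw [h3 i h6]; rfl
    · rw [h4]; rfl
    · rw [h5]; rfl
  · right
    have h5 : τ b = a := by
      rcases hcase (τ b) with h6 | h6 | h6
      · exact absurd h6 (hout b hb3)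
      · exact h6
      · exact absurd (τ.injective (h4.trans h6.symm)) hab
    ext i
    rcases hcase i with h6 | rfl | rfl
    · rw [h3 i h6, Equiv.swap_apply_of_ne_of_ne]
      · intro h'
        rw [h'] at h6
        exact ha3 h6
      · intro h'
        rw [h'] at h6
        exact hb3 h6
    · rw [h4, Equiv.swap_apply_left]
    · rw [h5, Equiv.swap_apply_right]

theorem TT_sub_one (hn : 3 ≤ n) : ee (1 : Equiv.Perm (Fin n)) ≤ TT n ∧ TT n - ee 1 =
    Finsupp.single (⟨0, by omega⟩ : Fin n) (n - 2) +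
      Finsupp.single (⟨1, by omega⟩ : Fin n) 2 := by
  constructor
  · intro j
    rw [ee_apply, TT_apply, Equiv.Perm.one_apply, Fin.val_rev]
    have := j.2
    split_ifs <;> omega
  · ext j
    rw [Finsupp.tsub_apply, ee_apply, TT_apply, Equiv.Perm.one_apply, Fin.val_rev,
      Finsupp.add_apply, Finsupp.single_apply, Finsupp.single_apply]
    have := j.2
    simp only [Fin.ext_iff]
    split_ifs <;> omega

theorem TT_sub_swap (hn : 3 ≤ n) :
    ee (Equiv.swap (⟨n - 2, by omega⟩ : Fin n) ⟨n - 1, by omega⟩) ≤ TT n ∧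
    TT n - ee (Equiv.swap (⟨n - 2, by omega⟩ : Fin n) ⟨n - 1, by omega⟩) =
    Finsupp.single (⟨0, by omega⟩ : Fin n) (n - 1) +
      Finsupp.single (⟨1, by omega⟩ : Fin n) 1 := by
  have hval : ∀ j : Fin n, ((Equiv.swap (⟨n - 2, by omega⟩ : Fin n) ⟨n - 1, by omega⟩
      (Fin.rev j) : Fin n) : ℕ) = if (j : ℕ) = 0 then n - 2 else if (j : ℕ) = 1 then n - 1 else
        n - 1 - j := by
    intro j
    have := j.2
    rw [Equiv.swap_apply_def]
    by_cases h0 : (j : ℕ) = 0
    · rw [if_neg (by rw [Fin.ext_iff, Fin.val_rev]; simp; omega),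
        if_pos (by rw [Fin.ext_iff, Fin.val_rev]; simp; omega), if_pos h0]
    · by_cases h1 : (j : ℕ) = 1
      · rw [if_pos (by rw [Fin.ext_iff, Fin.val_rev]; simp; omega), if_neg h0, if_pos h1]
      · rw [if_neg (by rw [Fin.ext_iff, Fin.val_rev]; simp; omega),
          if_neg (by rw [Fin.ext_iff, Fin.val_rev]; simp; omega), if_neg h0, if_neg h1,
          Fin.val_rev]
        omega
  constructor
  · intro j
    rw [ee_apply, TT_apply, hval]
    have := j.2
    split_ifs <;> omega
  · ext j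
    rw [Finsupp.tsub_apply, ee_apply, TT_apply, hval,
      Finsupp.add_apply, Finsupp.single_apply, Finsupp.single_apply]
    have := j.2
    simp only [Fin.ext_iff]
    split_ifs <;> omega

theorem coeff_delta_mul (hn : 3 ≤ n) (P : MvPolynomial (Fin n) ℤ) (hP : P.IsHomogeneous n) :
    MvPolynomial.coeff (TT n) ((∏ i : Fin n, ∏ j : Fin n,
      (if i < j then (MvPolynomial.X i - MvPolynomial.X j : MvPolynomial (Fin n) ℤ) else 1)) * P) =
    (ev n P).coeff 2 - (ev n P).coeff 1 := by
  classical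
  set w : Equiv.Perm (Fin n) := Equiv.swap ⟨n - 2, by omega⟩ ⟨n - 1, by omega⟩ with hw
  have hne : (⟨n - 2, by omega⟩ : Fin n) ≠ ⟨n - 1, by omega⟩ := by
    intro h
    rw [Fin.ext_iff] at h
    simp at h
    omega
  have hw1 : (1 : Equiv.Perm (Fin n)) ≠ w := by
    intro h
    have := DFunLike.congr_fun h (⟨n - 2, by omega⟩ : Fin n)
    rw [hw, Equiv.swap_apply_left] at this
    exact hne this
  rw [delta_eq, Finset.sum_mul, MvPolynomial.coeff_sum]
  have h1 : ∀ τ : Equiv.Perm (Fin n), MvPolynomial.coeff (TT n)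
      ((Equiv.Perm.sign τ : ℤ) • MvPolynomial.monomial (ee τ) (1 : ℤ) * P) =
      (Equiv.Perm.sign τ : ℤ) * (if ee τ ≤ TT n then MvPolynomial.coeff (TT n - ee τ) P else 0) := by
    intro τ
    rw [smul_mul_assoc, MvPolynomial.coeff_smul, MvPolynomial.coeff_monomial_mul', one_mul,
      smul_eq_mul]
  simp only [h1]
  rw [← Finset.sum_subset (Finset.subset_univ ({1, w} : Finset (Equiv.Perm (Fin n)))),
    Finset.sum_pair hw1]
  · have e1 := coeff_eq_ev (by omega) P hP 2 (by omega)
    have e2 := coeff_eq_ev (by omega) P hP 1 (by omega)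
    rw [if_pos (TT_sub_one hn).1, if_pos (TT_sub_swap hn).1, (TT_sub_one hn).2, (TT_sub_swap hn).2,
      e1, e2, hw, Equiv.Perm.sign_swap hne]
    simp
    ring
  · intro τ _ hτ
    rw [if_neg, mul_zero]
    intro h
    apply hτ
    simp only [Finset.mem_insert, Finset.mem_singleton]
    exact perm_cases hn τ h

end Pool.Agent.H3.HP
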