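import Mathlib

/-!
# Permutation matrices of a finite `G`-set and equivariant orthogonal projections
-/

set_option autoImplicit false
set_option linter.unusedSectionVars false

open Matrix Finset

open scoped Kronecker

namespace Pool.Agent.H3.HP

section General

variable {G : Type} [Group G]

/-- the permutation matrix of `g` on the `G`-set `Y`. -/
def R (Y : Type) [DecidableEq Y] [MulAction G Y] (g : G) : Matrix Y Y ℝ :=
  Matrix.of fun i j => if g • j = i then 1 else 0

variable {X Y Z : Type} [Fintype X] [DecidableEq X] [MulAction G X]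
  [Fintype Y] [DecidableEq Y] [MulAction G Y]

theorem R_mul_apply (g : G) (M : Matrix Y Z ℝ) (i : Y) (j : Z) :
    (R Y g * M) i j = M (g⁻¹ • i) j := by
  rw [Matrix.mul_apply, Finset.sum_eq_single (g⁻¹ • i)]
  · simp [R]
  · intro b _ hb
    have : ¬ g • b = i := by
      intro h
      apply hb
      rw [← h, inv_smul_smul]
    simp [R, this]
  · intro h
    exact absurd (Finset.mem_univ _) h

theorem mul_R_apply (g : G) (M : Matrix Z Y ℝ) (i : Z) (j : Y) :
    (M * R Y g) i j = M i (g • j) := by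
  rw [Matrix.mul_apply, Finset.sum_eq_single (g • j)]
  · simp [R]
  · intro b _ hb
    have : ¬ g • j = b := fun h => hb h.symm
    simp [R, this]
  · intro h
    exact absurd (Finset.mem_univ _) h

theorem R_one : R Y (1 : G) = 1 := by
  ext i j
  simp [R, Matrix.one_apply, eq_comm]

theorem R_mul (g h : G) : R Y (g * h) = R Y g * R Y h := by
  ext i j
  rw [mul_R_apply]
  simp [R, mul_smul]

theorem R_transpose (g : G) : (R Y g)ᵀ = R Y g⁻¹ := by
  ext i j
  simp only [Matrix.transpose_apply, R, Matrix.of_apply]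
  congr 1
  rw [inv_smul_eq_iff]
  exact propext ⟨fun h => h.symm, fun h => h.symm⟩

theorem R_mul_inv (g : G) : R Y g * R Y g⁻¹ = 1 := by
  rw [← R_mul, mul_inv_cancel, R_one]

theorem R_inv_mul (g : G) : R Y g⁻¹ * R Y g = 1 := by
  rw [← R_mul, inv_mul_cancel, R_one]

theorem trace_R (g : G) : (R Y g).trace = ((Finset.univ.filter (fun y : Y => g • y = y)).card : ℝ) := by
  simp only [Matrix.trace, Matrix.diag, R, Matrix.of_apply, Finset.sum_boole]

theorem R_kronecker (g : G) : R X g ⊗ₖ R Y g = R (X × Y) g := by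
  ext ⟨i, i'⟩ ⟨j, j'⟩
  simp only [Matrix.kronecker_apply, R, Matrix.of_apply, Prod.smul_mk, Prod.mk.injEq]
  by_cases h1 : g • j = i <;> by_cases h2 : g • j' = i' <;> simp [h1, h2]

/-- equivariant orthogonal projections. -/
structure IsProj (G : Type) [Group G] [MulAction G Y] (E : Matrix Y Y ℝ) : Prop where
  symm : Eᵀ = E
  idem : E * E = E
  comm : ∀ g : G, R Y g * E = E * R Y g

/-- the character of the image of `E`. -/
def ch (E : Matrix Y Y ℝ) (g : G) : ℝ := (E * R Y g).trace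

theorem ch_one (E : Matrix Y Y ℝ) : ch E (1 : G) = E.trace := by
  rw [ch, R_one, mul_one]

theorem ch_mul_comm {E : Matrix Y Y ℝ} (hE : IsProj G E) (g h : G) :
    ch E (g * h) = ch E (h * g) := by
  rw [ch, ch, R_mul, R_mul, ← mul_assoc, Matrix.trace_mul_comm, ← mul_assoc, hE.comm, mul_assoc]

theorem ch_conj {E : Matrix Y Y ℝ} (hE : IsProj G E) (g h : G) :
    ch E (g * h * g⁻¹) = ch E h := by
  rw [ch_mul_comm hE, ← mul_assoc, inv_mul_cancel, one_mul]

theorem ch_inv {E : Matrix Y Y ℝ} (hE : IsProj G E) (g : G) : ch E g⁻¹ = ch E g := by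
  rw [ch, ch, ← R_transpose, ← Matrix.trace_transpose, Matrix.transpose_mul,
    Matrix.transpose_transpose, hE.symm, hE.comm]

/-- the Schur property: every equivariant matrix acts on the image of `E` as a scalar. -/
def IsSchur (G : Type) [Group G] [MulAction G Y] (E : Matrix Y Y ℝ) : Prop :=
  ∀ B : Matrix Y Y ℝ, (∀ g : G, R Y g * B = B * R Y g) → ∃ c : ℝ, B * E = c • E

/-- the character relation of an irreducible representation. -/
theorem ch_star [Fintype G] {E : Matrix Y Y ℝ} (hE : IsProj G E) (hS : IsSchur G E) (g h : G) :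
    E.trace * ∑ c : G, ch E (g * (c * h * c⁻¹)) = (Fintype.card G : ℝ) * ch E g * ch E h := by
  let B : Matrix Y Y ℝ := ∑ c : G, R Y (c * h * c⁻¹)
  have hB : ∀ k : G, R Y k * B = B * R Y k := by
    intro k
    have h1 : R Y k * B * R Y k⁻¹ = B := by
      simp only [B, Finset.mul_sum, Finset.sum_mul, ← R_mul]
      apply Fintype.sum_equiv (Equiv.mulLeft k)
      intro c
      congr 1
      simp only [Equiv.coe_mulLeft]
      group
    calc R Y k * B = R Y k * B * (R Y k⁻¹ * R Y k) := by rw [R_inv_mul, mul_one]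
      _ = B * R Y k := by rw [← mul_assoc, h1]
  obtain ⟨l, hl⟩ := hS B hB
  have h1 : (B * E).trace = (Fintype.card G : ℝ) * ch E h := by
    simp only [B, Finset.sum_mul, Matrix.trace_sum]
    have : ∀ c : G, (R Y (c * h * c⁻¹) * E).trace = ch E h := by
      intro c
      rw [Matrix.trace_mul_comm]
      exact ch_conj hE c h
    simp [this]
  have h2 : l * E.trace = (Fintype.card G : ℝ) * ch E h := by
    rw [← h1, hl, Matrix.trace_smul, smul_eq_mul]
  have h3 : ∑ c : G, ch E (g * (c * h * c⁻¹)) = l * ch E g := by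
    have : ∀ c : G, ch E (g * (c * h * c⁻¹)) = (R Y g * R Y (c * h * c⁻¹) * E).trace := by
      intro c
      rw [ch, R_mul, Matrix.trace_mul_comm]
    simp only [this]
    rw [← Matrix.trace_sum, ← Finset.sum_mul, ← Finset.mul_sum, mul_assoc]
    show (R Y g * (B * E)).trace = _
    rw [hl, Matrix.mul_smul, Matrix.trace_smul, smul_eq_mul, Matrix.trace_mul_comm]
    rfl
  rw [h3, ← mul_assoc, mul_comm E.trace l, h2]
  ring

theorem trace_mul_transpose (A B : Matrix X Y ℝ) :
    (A * Bᵀ).trace = ∑ i, ∑ j, A i j * B i j := by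
  simp [Matrix.trace, Matrix.mul_apply]

theorem trace_self_transpose_eq_zero (A : Matrix X Y ℝ) (h : (A * Aᵀ).trace = 0) : A = 0 := by
  rw [trace_mul_transpose] at h
  have h1 : ∀ i ∈ (Finset.univ : Finset X), 0 ≤ ∑ j, A i j * A i j := fun i _ =>
    Finset.sum_nonneg (fun j _ => mul_self_nonneg _)
  ext i j
  have h2 := (Finset.sum_eq_zero_iff_of_nonneg h1).1 h i (Finset.mem_univ _)
  have h3 := (Finset.sum_eq_zero_iff_of_nonneg (fun j _ => mul_self_nonneg (A i j))).1 h2 j
    (Finset.mem_univ _)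
  simpa using h3

/-- an equivariant nonzero map from the image of `E` to an irreducible `F` splits `F` off. -/
theorem exists_sub_proj {E : Matrix Y Y ℝ} (hE : IsProj G E) {F : Matrix X X ℝ}
    (hF : IsProj G F) (hS : IsSchur G F) (b : Matrix X Y ℝ) (hb : ∀ g : G, R X g * b = b * R Y g)
    (hbE : b * E = b) (hFb : F * b = b) (hb0 : b ≠ 0) :
    ∃ Q : Matrix Y Y ℝ, IsProj G Q ∧ ∀ g : G, ch Q g = ch E g - ch F g := by
  have hbt : ∀ g : G, R Y g * bᵀ = bᵀ * R X g := by
    intro g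
    have h1 := congrArg Matrix.transpose (hb g⁻¹)
    rw [Matrix.transpose_mul, Matrix.transpose_mul, R_transpose, R_transpose, inv_inv] at h1
    exact h1.symm
  obtain ⟨l, hl⟩ := hS (b * bᵀ) (by
    intro g
    rw [← Matrix.mul_assoc, hb, Matrix.mul_assoc, hbt, Matrix.mul_assoc])
  have hK : b * bᵀ = l • F := by
    have h1 := congrArg Matrix.transpose hFb
    rw [Matrix.transpose_mul, hF.symm] at h1
    rw [← hl, Matrix.mul_assoc, h1]
  have hl0 : l ≠ 0 := by
    rintro rfl
    apply hb0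
    apply trace_self_transpose_eq_zero
    rw [hK, zero_smul, Matrix.trace_zero]
  have h1 : E * bᵀ = bᵀ := by
    have h1 := congrArg Matrix.transpose hbE
    rwa [Matrix.transpose_mul, hE.symm] at h1
  have h2 : (bᵀ * b) * (bᵀ * b) = l • (bᵀ * b) := by
    calc (bᵀ * b) * (bᵀ * b) = bᵀ * (b * bᵀ) * b := by simp only [Matrix.mul_assoc]
      _ = l • (bᵀ * b) := by
        rw [hK, Matrix.mul_smul, Matrix.smul_mul, Matrix.mul_assoc, hFb]
  refine ⟨E - l⁻¹ • (bᵀ * b), ⟨?_, ?_, ?_⟩, ?_⟩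
  · rw [Matrix.transpose_sub, Matrix.transpose_smul, Matrix.transpose_mul,
      Matrix.transpose_transpose, hE.symm]
  · have h3 : E * (bᵀ * b) = bᵀ * b := by rw [← Matrix.mul_assoc, h1]
    have h4 : (bᵀ * b) * E = bᵀ * b := by rw [Matrix.mul_assoc, hbE]
    rw [sub_mul, mul_sub, mul_sub, hE.idem, Matrix.mul_smul, Matrix.smul_mul, h3, h4,
      Matrix.smul_mul, Matrix.mul_smul, h2, smul_smul, smul_smul]
    have : l⁻¹ * l⁻¹ * l = l⁻¹ := by rw [mul_assoc, inv_mul_cancel₀ hl0, mul_one]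
    rw [this]
    abel
  · intro g
    rw [mul_sub, sub_mul, hE.comm, Matrix.mul_smul, Matrix.smul_mul]
    congr 2
    rw [← Matrix.mul_assoc, hbt, Matrix.mul_assoc, hb, Matrix.mul_assoc]
  · intro g
    have h3 : ((bᵀ * b) * R Y g).trace = l * ch F g := by
      calc ((bᵀ * b) * R Y g).trace = (b * (R Y g * bᵀ)).trace := by
            rw [Matrix.mul_assoc, Matrix.trace_mul_comm, Matrix.mul_assoc]
        _ = ((b * bᵀ) * R X g).trace := by rw [hbt, Matrix.mul_assoc]
        _ = l * ch F g := by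
          rw [hK, Matrix.smul_mul, Matrix.trace_smul, smul_eq_mul]
          rfl
    rw [ch, sub_mul, Matrix.trace_sub, Matrix.smul_mul, Matrix.trace_smul, h3, smul_eq_mul,
      ← mul_assoc, inv_mul_cancel₀ hl0, one_mul]
    rfl

/-- inner product formula for characters. -/
theorem ch_mul_inv_eq {E : Matrix Y Y ℝ} (hE : IsProj G E) (g h : G) :
    ch E (g * h⁻¹) = ∑ i, ∑ j, (E * R Y g) i j * (E * R Y h) i j := by
  rw [← trace_mul_transpose, Matrix.transpose_mul, R_transpose, hE.symm, ch, R_mul]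
  calc (E * (R Y g * R Y h⁻¹)).trace = (E * E * (R Y g * R Y h⁻¹)).trace := by rw [hE.idem]
    _ = (E * (E * (R Y g * R Y h⁻¹))).trace := by rw [Matrix.mul_assoc]
    _ = (E * (R Y g * R Y h⁻¹) * E).trace := by rw [Matrix.trace_mul_comm]
    _ = _ := by simp only [Matrix.mul_assoc]

/-- **positivity**: for all `b`, `∑ₓ χ_E(x) χ_Q(x b x⁻¹ b⁻¹) ≥ 0`. -/
theorem pos_comm [Fintype G] {E : Matrix X X ℝ} (hE : IsProj G E) {Q : Matrix Y Y ℝ}
    (hQ : IsProj G Q) (b : G) : 0 ≤ ∑ x : G, ch E x * ch Q (x * b * x⁻¹ * b⁻¹) := by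
  have h1 : ∀ y : G, ∑ x : G, ch E x * ch Q (x * b * x⁻¹ * b⁻¹) =
      ∑ x : G, ch E (x * y⁻¹) * ch Q ((x * b * x⁻¹) * (y * b * y⁻¹)⁻¹) := by
    intro y
    apply Fintype.sum_equiv (Equiv.mulLeft y)
    intro x
    simp only [Equiv.coe_mulLeft]
    rw [ch_conj hE]
    congr 1
    have h2 : y * x * b * (y * x)⁻¹ * (y * b * y⁻¹)⁻¹ = y * (x * b * x⁻¹ * b⁻¹) * y⁻¹ := by
      group
    rw [h2, ch_conj hQ]
  have h2 : (Fintype.card G : ℝ) * ∑ x : G, ch E x * ch Q (x * b * x⁻¹ * b⁻¹) =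
      ∑ y : G, ∑ x : G, ch E (x * y⁻¹) * ch Q ((x * b * x⁻¹) * (y * b * y⁻¹)⁻¹) := by
    simp only [← h1]
    simp
  have h3 : ∑ y : G, ∑ x : G, ch E (x * y⁻¹) * ch Q ((x * b * x⁻¹) * (y * b * y⁻¹)⁻¹) =
      ∑ i : X, ∑ j : X, ∑ k : Y, ∑ l : Y,
        (∑ x : G, (E * R X x) i j * (Q * R Y (x * b * x⁻¹)) k l) ^ 2 := by
    have h4 : ∀ x y : G, ch E (x * y⁻¹) * ch Q ((x * b * x⁻¹) * (y * b * y⁻¹)⁻¹) =
        ∑ i : X, ∑ j : X, ∑ k : Y, ∑ l : Y, ((E * R X x) i j * (Q * R Y (x * b * x⁻¹)) k l) *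
          ((E * R X y) i j * (Q * R Y (y * b * y⁻¹)) k l) := by
      intro x y
      rw [ch_mul_inv_eq hE, ch_mul_inv_eq hQ]
      rw [Finset.sum_mul]
      refine Finset.sum_congr rfl fun i _ => ?_
      rw [Finset.sum_mul]
      refine Finset.sum_congr rfl fun j _ => ?_
      rw [Finset.mul_sum]
      refine Finset.sum_congr rfl fun k _ => ?_
      rw [Finset.mul_sum]
      refine Finset.sum_congr rfl fun l _ => ?_
      ring
    simp only [h4]
    have h5 : ∀ f : G → G → X → X → Y → Y → ℝ,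
        ∑ y : G, ∑ x : G, ∑ i : X, ∑ j : X, ∑ k : Y, ∑ l : Y, f y x i j k l =
        ∑ i : X, ∑ j : X, ∑ k : Y, ∑ l : Y, ∑ y : G, ∑ x : G, f y x i j k l := by
      intro f
      have h6 : ∀ y : G, ∑ x : G, ∑ i : X, ∑ j : X, ∑ k : Y, ∑ l : Y, f y x i j k l =
          ∑ i : X, ∑ j : X, ∑ k : Y, ∑ l : Y, ∑ x : G, f y x i j k l := by
        intro y
        rw [Finset.sum_comm]
        refine Finset.sum_congr rfl fun i _ => ?_
        rw [Finset.sum_comm]
        refine Finset.sum_congr rfl fun j _ => ?_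
        rw [Finset.sum_comm]
        refine Finset.sum_congr rfl fun k _ => ?_
        rw [Finset.sum_comm]
      simp only [h6]
      rw [Finset.sum_comm]
      refine Finset.sum_congr rfl fun i _ => ?_
      rw [Finset.sum_comm]
      refine Finset.sum_congr rfl fun j _ => ?_
      rw [Finset.sum_comm]
      refine Finset.sum_congr rfl fun k _ => ?_
      rw [Finset.sum_comm]
    rw [h5]
    refine Finset.sum_congr rfl fun i _ => ?_
    refine Finset.sum_congr rfl fun j _ => ?_
    refine Finset.sum_congr rfl fun k _ => ?_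
    refine Finset.sum_congr rfl fun l _ => ?_
    rw [sq, Finset.sum_mul_sum]
    rw [Finset.sum_comm]
  have h4 : 0 ≤ (Fintype.card G : ℝ) * ∑ x : G, ch E x * ch Q (x * b * x⁻¹ * b⁻¹) := by
    rw [h2, h3]
    exact Finset.sum_nonneg fun i _ => Finset.sum_nonneg fun j _ => Finset.sum_nonneg fun k _ =>
      Finset.sum_nonneg fun l _ => sq_nonneg _
  have h5 : (0 : ℝ) < Fintype.card G := by exact_mod_cast Fintype.card_pos
  exact nonneg_of_mul_nonneg_right h4 h5

/-- tensor products of projections. -/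
theorem IsProj.kronecker {E : Matrix X X ℝ} (hE : IsProj G E) {F : Matrix Y Y ℝ}
    (hF : IsProj G F) : IsProj G (E ⊗ₖ F) where
  symm := by rw [← Matrix.kroneckerMap_transpose, hE.symm, hF.symm]
  idem := by rw [← Matrix.mul_kronecker_mul, hE.idem, hF.idem]
  comm g := by
    rw [← R_kronecker, ← Matrix.mul_kronecker_mul, ← Matrix.mul_kronecker_mul, hE.comm, hF.comm]

theorem ch_kronecker (E : Matrix X X ℝ) (F : Matrix Y Y ℝ) (g : G) :
    ch (E ⊗ₖ F) g = ch E g * ch F g := by
  rw [ch, ← R_kronecker, ← Matrix.mul_kronecker_mul, Matrix.trace_kronecker]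
  rfl

end General

end Pool.Agent.H3.HP
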