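import Pool.Agent.H3.HP.Sn

/-!
# Schur property of `E2` and the two nonzero equivariant maps
-/

set_option autoImplicit false
set_option linter.unusedSectionVars false

open Matrix Finset

open scoped Kronecker

namespace Pool.Agent.H3.HP

variable {n : ℕ}

theorem smul_pr (g : Equiv.Perm (Fin n)) (i j : Fin n) (h : i ≠ j) :
    g • pr i j h = pr (g i) (g j) (fun h' => h (g.injective h')) := by
  apply Subtype.ext
  show ({i, j} : Finset (Fin n)).map g.toEmbedding = {g i, g j}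
  rw [Finset.map_insert, Finset.map_singleton]
  rfl

theorem exists_pr (s : X2 n) : ∃ (i j : Fin n) (h : i ≠ j), s = pr i j h := by
  obtain ⟨i, j, h, hs⟩ := Finset.card_eq_two.1 s.2
  exact ⟨i, j, h, Subtype.ext hs⟩

theorem pr_comm (i j : Fin n) (h : i ≠ j) : pr i j h = pr j i h.symm :=
  Subtype.ext (Finset.pair_comm i j)

/-- the classification of pairs of two-element subsets. -/
theorem pair_cases (s t : X2 n) :
    s = t ∨ (∃ (i j k : Fin n) (hij : i ≠ j) (hik : i ≠ k) (_ : j ≠ k),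
      s = pr i j hij ∧ t = pr i k hik) ∨
    (∃ (i j k l : Fin n) (hij : i ≠ j) (hkl : k ≠ l), i ≠ k ∧ i ≠ l ∧ j ≠ k ∧ j ≠ l ∧
      s = pr i j hij ∧ t = pr k l hkl) := by
  obtain ⟨i, j, hij, rfl⟩ := exists_pr s
  obtain ⟨k, l, hkl, rfl⟩ := exists_pr t
  by_cases h1 : i = k
  · subst h1
    by_cases h2 : j = l
    · subst h2
      exact Or.inl rfl
    · exact Or.inr (Or.inl ⟨i, j, l, hij, hkl, h2, rfl, rfl⟩)
  · by_cases h2 : i = l
    · subst h2
      by_cases h3 : j = k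
      · subst h3
        exact Or.inl (pr_comm _ _ _)
      · exact Or.inr (Or.inl ⟨i, j, k, hij, hkl.symm, h3, rfl, pr_comm _ _ _⟩)
    · by_cases h3 : j = k
      · subst h3
        exact Or.inr (Or.inl ⟨j, i, l, hij.symm, hkl, h2, pr_comm _ _ _, rfl⟩)
      · by_cases h4 : j = l
        · subst h4
          exact Or.inr (Or.inl ⟨j, i, k, hij.symm, hkl.symm, h1, pr_comm _ _ _, pr_comm _ _ _⟩)
        · exact Or.inr (Or.inr ⟨i, j, k, l, hij, hkl, h1, h2, h3, h4, rfl, rfl⟩)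

theorem NNt_NN_self (s : X2 n) : ((NN n)ᵀ * NN n) s s = 2 := by
  rw [Matrix.mul_apply, ← sum_NN s]
  refine Finset.sum_congr rfl fun i _ => ?_
  simp only [NN, Matrix.of_apply, Matrix.transpose_apply]
  split_ifs <;> ring

theorem NNt_NN_apply (s t : X2 n) : ((NN n)ᵀ * NN n) s t = ((s.1 ∩ t.1).card : ℝ) := by
  rw [Matrix.mul_apply]
  have : ∀ i, (NN n)ᵀ s i * NN n i t = if i ∈ s.1 ∩ t.1 then 1 else 0 := by
    intro i
    simp only [NN, Matrix.of_apply, Matrix.transpose_apply, Finset.mem_inter]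
    by_cases h1 : i ∈ s.1 <;> by_cases h2 : i ∈ t.1 <;> simp [h1, h2]
  simp only [this, Finset.sum_boole]
  congr 2
  ext i
  simp

theorem NNt_NN_one (i j k : Fin n) (hij : i ≠ j) (hik : i ≠ k) (hjk : j ≠ k) :
    ((NN n)ᵀ * NN n) (pr i j hij) (pr i k hik) = 1 := by
  rw [NNt_NN_apply]
  have : (pr i j hij).1 ∩ (pr i k hik).1 = {i} := by
    ext a
    simp only [pr, Finset.mem_inter, Finset.mem_insert, Finset.mem_singleton]
    constructor
    · rintro ⟨rfl | rfl, h | h⟩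
      · rfl
      · exact h ▸ rfl
      · exact absurd h hij.symm
      · exact absurd h hjk
    · rintro rfl
      exact ⟨Or.inl rfl, Or.inl rfl⟩
  rw [this]
  simp

theorem NNt_NN_zero (i j k l : Fin n) (hij : i ≠ j) (hkl : k ≠ l) (h1 : i ≠ k) (h2 : i ≠ l)
    (h3 : j ≠ k) (h4 : j ≠ l) : ((NN n)ᵀ * NN n) (pr i j hij) (pr k l hkl) = 0 := by
  rw [NNt_NN_apply]
  have : (pr i j hij).1 ∩ (pr k l hkl).1 = ∅ := by
    ext a
    simp only [pr, Finset.mem_inter, Finset.mem_insert, Finset.mem_singleton,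
      Finset.notMem_empty, iff_false, not_and, not_or]
    rintro (rfl | rfl)
    · exact ⟨h1, h2⟩
    · exact ⟨h3, h4⟩
  rw [this]
  simp

theorem inj4 {i j k l : Fin n} (hij : i ≠ j) (hik : i ≠ k) (hil : i ≠ l) (hjk : j ≠ k)
    (hjl : j ≠ l) (hkl : k ≠ l) : Function.Injective ![i, j, k, l] := by
  intro a b hab
  fin_cases a <;> fin_cases b <;> simp_all [eq_comm]

theorem inj3 {i j k : Fin n} (hij : i ≠ j) (hik : i ≠ k) (hjk : j ≠ k) :
    Function.Injective ![i, j, k] := by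
  intro a b hab
  fin_cases a <;> fin_cases b <;> simp_all [eq_comm]

theorem inj2 {i j : Fin n} (hij : i ≠ j) : Function.Injective ![i, j] := by
  intro a b hab
  fin_cases a <;> fin_cases b <;> simp_all [eq_comm]

theorem pr_ne_one (i j k : Fin n) (hij : i ≠ j) (hik : i ≠ k) (hjk : j ≠ k) :
    pr i j hij ≠ pr i k hik := by
  intro h
  have h1 := NNt_NN_one i j k hij hik hjk
  rw [← h, NNt_NN_self] at h1
  norm_num at h1

theorem pr_ne_zero (i j k l : Fin n) (hij : i ≠ j) (hkl : k ≠ l) (h1 : i ≠ k) (h2 : i ≠ l)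
    (h3 : j ≠ k) (h4 : j ≠ l) : pr i j hij ≠ pr k l hkl := by
  intro h
  have h1 := NNt_NN_zero i j k l hij hkl h1 h2 h3 h4
  rw [← h, NNt_NN_self] at h1
  norm_num at h1

theorem isSchur_E2 (hn : 4 ≤ n) : IsSchur (Equiv.Perm (Fin n)) (E2 n) := by
  intro B hB
  let a0 : Fin n := ⟨0, by omega⟩
  let a1 : Fin n := ⟨1, by omega⟩
  let a2 : Fin n := ⟨2, by omega⟩
  let a3 : Fin n := ⟨3, by omega⟩
  have h01 : a0 ≠ a1 := by simp [a0, a1, Fin.ext_iff]
  have h02 : a0 ≠ a2 := by simp [a0, a2, Fin.ext_iff]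
  have h03 : a0 ≠ a3 := by simp [a0, a3, Fin.ext_iff]
  have h12 : a1 ≠ a2 := by simp [a1, a2, Fin.ext_iff]
  have h13 : a1 ≠ a3 := by simp [a1, a3, Fin.ext_iff]
  have h23 : a2 ≠ a3 := by simp [a2, a3, Fin.ext_iff]
  set b0 : ℝ := B (pr a0 a1 h01) (pr a0 a1 h01) with hb0
  set b1 : ℝ := B (pr a0 a1 h01) (pr a0 a2 h02) with hb1
  set b2 : ℝ := B (pr a0 a1 h01) (pr a2 a3 h23) with hb2
  have key : B = (b0 - 2 * b1 + b2) • (1 : Matrix (X2 n) (X2 n) ℝ) +
      ((b1 - b2) • (NN n)ᵀ + (b2 / 2) • Matrix.of (fun _ _ => 1)) * NN n := by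
    ext s t
    have hJ : ((Matrix.of (fun _ _ => 1) : Matrix (X2 n) (Fin n) ℝ) * NN n) s t = 2 := by
      rw [Matrix.mul_apply, ← sum_NN t]
      simp
    rw [Matrix.add_mul, Matrix.smul_mul, Matrix.smul_mul]
    simp only [Matrix.add_apply, Matrix.smul_apply, smul_eq_mul, hJ]
    rcases pair_cases s t with rfl | ⟨i, j, k, hij, hik, hjk, rfl, rfl⟩ |
      ⟨i, j, k, l, hij, hkl, h1, h2, h3, h4, rfl, rfl⟩
    · obtain ⟨i, j, hij, rfl⟩ := exists_pr s
      obtain ⟨g, hg⟩ := exists_perm (n := n) (k := 2) ![a0, a1] ![i, j] (inj2 h01) (inj2 hij)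
      have h1 := entry_invariant B hB g (pr a0 a1 h01) (pr a0 a1 h01)
      have e0 : g a0 = i := hg 0
      have e1 : g a1 = j := hg 1
      have e2 : g • pr a0 a1 h01 = pr i j hij := by
        rw [smul_pr]
        simp only [e0, e1]
      rw [e2] at h1
      rw [h1, NNt_NN_self, Matrix.one_apply_eq]
      ring
    · obtain ⟨g, hg⟩ := exists_perm (n := n) (k := 3) ![a0, a1, a2] ![i, j, k]
        (inj3 h01 h02 h12) (inj3 hij hik hjk)
      have h1 := entry_invariant B hB g (pr a0 a1 h01) (pr a0 a2 h02)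
      have e0 : g a0 = i := hg 0
      have e1 : g a1 = j := hg 1
      have e2 : g a2 = k := hg 2
      have e3 : g • pr a0 a1 h01 = pr i j hij := by
        rw [smul_pr]
        simp only [e0, e1]
      have e4 : g • pr a0 a2 h02 = pr i k hik := by
        rw [smul_pr]
        simp only [e0, e2]
      rw [e3, e4] at h1
      rw [h1, NNt_NN_one i j k hij hik hjk, Matrix.one_apply_ne (pr_ne_one i j k hij hik hjk)]
      ring
    · obtain ⟨g, hg⟩ := exists_perm (n := n) (k := 4) ![a0, a1, a2, a3] ![i, j, k, l]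
        (inj4 h01 h02 h03 h12 h13 h23) (inj4 hij h1 h2 h3 h4 hkl)
      have h5 := entry_invariant B hB g (pr a0 a1 h01) (pr a2 a3 h23)
      have e0 : g a0 = i := hg 0
      have e1 : g a1 = j := hg 1
      have e2 : g a2 = k := hg 2
      have e3 : g a3 = l := hg 3
      have e4 : g • pr a0 a1 h01 = pr i j hij := by
        rw [smul_pr]
        simp only [e0, e1]
      have e5 : g • pr a2 a3 h23 = pr k l hkl := by
        rw [smul_pr]
        simp only [e2, e3]
      rw [e4, e5] at h5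
      rw [h5, NNt_NN_zero i j k l hij hkl h1 h2 h3 h4,
        Matrix.one_apply_ne (pr_ne_zero i j k l hij hkl h1 h2 h3 h4)]
      ring
  refine ⟨b0 - 2 * b1 + b2, ?_⟩
  conv_lhs => rw [key]
  rw [Matrix.add_mul, Matrix.smul_mul, Matrix.one_mul, Matrix.mul_assoc, NN_mul_E2 (by omega),
    Matrix.mul_zero, add_zero]

theorem trace_E2 (hn : 3 ≤ n) : (E2 n).trace = (n : ℝ) * (n - 3) / 2 := by
  rw [← ch_one (G := Equiv.Perm (Fin n)), ch_E2 hn, R_one, R_one, Matrix.trace_one,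
    Matrix.trace_one, Fintype.card_finset_len, Fintype.card_fin, Nat.cast_choose_two]
  ring

end Pool.Agent.H3.HP
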