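import Pool.Agent.H3.HP.Sn2

/-!
# Two inequalities for the characters
-/

set_option autoImplicit false
set_option linter.unusedSectionVars false

open Matrix Finset

open scoped Kronecker

namespace Pool.Agent.H3.HP

section General

variable {G : Type} [Group G]
variable {X Y : Type} [Fintype X] [DecidableEq X] [MulAction G X]
  [Fintype Y] [DecidableEq Y] [MulAction G Y]

/-- `exists_sub_proj` with a test vector. -/
theorem exists_sub_proj' {E : Matrix Y Y ℝ} (hE : IsProj G E) {F : Matrix X X ℝ}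
    (hF : IsProj G F) (hS : IsSchur G F) (b : Matrix X Y ℝ) (hb : ∀ g : G, R X g * b = b * R Y g)
    (y : Y → ℝ) (hy : E *ᵥ y = y) (hne : F *ᵥ (b *ᵥ y) ≠ 0) :
    ∃ Q : Matrix Y Y ℝ, IsProj G Q ∧ ∀ g : G, ch Q g = ch E g - ch F g := by
  refine exists_sub_proj hE hF hS (F * b * E) ?_ ?_ ?_ ?_
  · intro g
    rw [← Matrix.mul_assoc, ← Matrix.mul_assoc, hF.comm, Matrix.mul_assoc F, hb,
      ← Matrix.mul_assoc F, Matrix.mul_assoc, hE.comm]
    simp only [Matrix.mul_assoc]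
  · rw [Matrix.mul_assoc, hE.idem]
  · rw [← Matrix.mul_assoc, ← Matrix.mul_assoc, hF.idem]
  · intro h
    apply hne
    have h1 : (F * b * E) *ᵥ y = F *ᵥ (b *ᵥ y) := by
      rw [← Matrix.mulVec_mulVec, ← Matrix.mulVec_mulVec, hy]
    rw [← h1, h, Matrix.zero_mulVec]

theorem kronecker_mulVec_tensor (E : Matrix X X ℝ) (F : Matrix Y Y ℝ) (u : X → ℝ) (v : Y → ℝ) :
    (E ⊗ₖ F) *ᵥ (fun p => u p.1 * v p.2) = fun p => (E *ᵥ u) p.1 * (F *ᵥ v) p.2 := by
  ext ⟨i, j⟩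
  simp only [Matrix.mulVec, dotProduct, Fintype.sum_prod_type, Matrix.kronecker_apply]
  rw [Finset.sum_mul_sum]
  refine Finset.sum_congr rfl fun a _ => Finset.sum_congr rfl fun b _ => ?_
  ring

end General

variable {n : ℕ}

theorem NN_pr (i a b : Fin n) (h : a ≠ b) :
    NN n i (pr a b h) = (if i = a then 1 else 0) + (if i = b then 1 else 0) := by
  simp only [NN, pr, Matrix.of_apply, Finset.mem_insert, Finset.mem_singleton]
  by_cases h1 : i = a
  · subst h1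
    simp [h]
  · by_cases h2 : i = b
    · subst h2
      simp [h1]
    · simp [h1, h2]

/-- the alternating four-cycle. -/
noncomputable def vv (a0 a1 a2 a3 : Fin n) (h01 : a0 ≠ a1) (h12 : a1 ≠ a2) (h23 : a2 ≠ a3)
    (h30 : a3 ≠ a0) : X2 n → ℝ := fun s =>
  (if s = pr a0 a1 h01 then 1 else 0) - (if s = pr a1 a2 h12 then 1 else 0) +
    (if s = pr a2 a3 h23 then 1 else 0) - (if s = pr a3 a0 h30 then 1 else 0)

theorem NN_vv (a0 a1 a2 a3 : Fin n) (h01 : a0 ≠ a1) (h12 : a1 ≠ a2) (h23 : a2 ≠ a3)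
    (h30 : a3 ≠ a0) : NN n *ᵥ vv a0 a1 a2 a3 h01 h12 h23 h30 = 0 := by
  ext i
  simp only [Matrix.mulVec, dotProduct, vv, mul_sub, mul_add, mul_ite, mul_one, mul_zero,
    Finset.sum_sub_distrib, Finset.sum_add_distrib, Finset.sum_ite_eq', Finset.mem_univ, if_true,
    NN_pr, Pi.zero_apply]
  ring

theorem E2_vv (a0 a1 a2 a3 : Fin n) (h01 : a0 ≠ a1) (h12 : a1 ≠ a2) (h23 : a2 ≠ a3)
    (h30 : a3 ≠ a0) : E2 n *ᵥ vv a0 a1 a2 a3 h01 h12 h23 h30 = vv a0 a1 a2 a3 h01 h12 h23 h30 := by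
  rw [E2, Matrix.sub_mulVec, Matrix.one_mulVec, ← Matrix.mulVec_mulVec, NN_vv,
    Matrix.mulVec_zero, sub_zero]

theorem E1_mulVec (f : Fin n → ℝ) (hf : ∑ i, f i = 0) : E1 n *ᵥ f = f := by
  have : JJ n *ᵥ f = 0 := by
    ext i
    simpa [Matrix.mulVec, dotProduct, JJ] using hf
  rw [E1, Matrix.sub_mulVec, Matrix.one_mulVec, Matrix.smul_mulVec, this, smul_zero, sub_zero]

theorem E1_mulVec_ne_zero (f : Fin n → ℝ) (i j : Fin n) (hij : f i ≠ f j) :
    E1 n *ᵥ f ≠ 0 := by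
  intro h
  apply hij
  have h1 : ∀ i, f i = (n : ℝ)⁻¹ * ∑ k, f k := by
    intro i
    have h2 := congrFun h i
    rw [E1, Matrix.sub_mulVec, Matrix.one_mulVec, Matrix.smul_mulVec] at h2
    simp only [Pi.sub_apply, Pi.smul_apply, smul_eq_mul, Pi.zero_apply, Matrix.mulVec, dotProduct,
      JJ, Matrix.of_apply, one_mul] at h2
    linarith
  rw [h1 i, h1 j]

/-- the diagonal map `V ⊗ V → ℝⁿ`. -/
def bb1 (n : ℕ) : Matrix (Fin n) (X2 n × X2 n) ℝ :=
  Matrix.of fun i p => if p.1 = p.2 then NN n i p.1 else 0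

theorem bb1_equiv (g : Equiv.Perm (Fin n)) :
    R (Fin n) g * bb1 n = bb1 n * R (X2 n × X2 n) g := by
  ext i ⟨s, t⟩
  rw [R_mul_apply, mul_R_apply]
  simp only [bb1, Matrix.of_apply, Prod.smul_mk, smul_left_cancel_iff]
  by_cases h : s = t
  · simp only [h, if_true, NN, Matrix.of_apply, mem_smul_X2, Equiv.Perm.smul_def]
  · simp [h]

/-- the trivial projection on a point. -/
theorem isProj_unit (G : Type) [Group G] : IsProj G (1 : Matrix PUnit PUnit ℝ) where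
  symm := Matrix.transpose_one
  idem := one_mul _
  comm g := by rw [mul_one, one_mul]

theorem isSchur_unit (G : Type) [Group G] : IsSchur G (1 : Matrix PUnit PUnit ℝ) := by
  intro B _
  refine ⟨B PUnit.unit PUnit.unit, ?_⟩
  ext ⟨⟩ ⟨⟩
  simp

theorem ch_unit {G : Type} [Group G] (g : G) : ch (1 : Matrix PUnit PUnit ℝ) g = 1 := by
  rw [ch, one_mul]
  simp [Matrix.trace, R]

/-- the contraction `V ⊗ ℝⁿ ⊗ ℝⁿ → ℝ`. -/
def bb2 (n : ℕ) : Matrix PUnit (X2 n × (Fin n × Fin n)) ℝ :=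
  Matrix.of fun _ p => if p.1.1 = {p.2.1, p.2.2} then 1 else 0

theorem bb2_equiv (g : Equiv.Perm (Fin n)) :
    R PUnit g * bb2 n = bb2 n * R (X2 n × (Fin n × Fin n)) g := by
  ext u ⟨s, i, j⟩
  rw [R_mul_apply, mul_R_apply]
  simp only [bb2, Matrix.of_apply, Prod.smul_mk, Equiv.Perm.smul_def]
  congr 1
  have h1 : ({g i, g j} : Finset (Fin n)) = ({i, j} : Finset (Fin n)).map g.toEmbedding := by
    rw [Finset.map_insert, Finset.map_singleton]
    rfl
  rw [smul_X2_val, h1, Finset.map_inj]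

theorem five_points (hn : 5 ≤ n) : ∃ a0 a1 a2 a3 a4 : Fin n, a0 ≠ a1 ∧ a0 ≠ a2 ∧ a0 ≠ a3 ∧
    a0 ≠ a4 ∧ a1 ≠ a2 ∧ a1 ≠ a3 ∧ a1 ≠ a4 ∧ a2 ≠ a3 ∧ a2 ≠ a4 ∧ a3 ≠ a4 := by
  refine ⟨⟨0, by omega⟩, ⟨1, by omega⟩, ⟨2, by omega⟩, ⟨3, by omega⟩, ⟨4, by omega⟩, ?_⟩
  simp [Fin.ext_iff]

/-- `std` occurs in `V ⊗ V`. -/
theorem exists_Q1 (hn : 5 ≤ n) : ∃ Q : Matrix (X2 n × X2 n) (X2 n × X2 n) ℝ,
    IsProj (Equiv.Perm (Fin n)) Q ∧
      ∀ g : Equiv.Perm (Fin n), ch Q g = ch (E2 n) g ^ 2 - ch (E1 n) g := by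
  obtain ⟨a0, a1, a2, a3, a4, h01, h02, h03, h04, h12, h13, h14, h23, h24, h34⟩ := five_points hn
  have hE2 : IsProj (Equiv.Perm (Fin n)) (E2 n) := isProj_E2 (by omega)
  set v := vv a0 a1 a2 a3 h01 h12 h23 h03.symm with hv
  have hvv : ∀ s, v s * v s = (if s = pr a0 a1 h01 then 1 else 0) +
      (if s = pr a1 a2 h12 then 1 else 0) + (if s = pr a2 a3 h23 then 1 else 0) +
      (if s = pr a3 a0 h03.symm then 1 else 0) := by
    intro s
    have d1 : pr a0 a1 h01 ≠ pr a1 a2 h12 := by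
      rw [pr_comm a0 a1]; exact pr_ne_one _ _ _ _ _ h02
    have d2 : pr a0 a1 h01 ≠ pr a2 a3 h23 := pr_ne_zero _ _ _ _ _ _ h02 h03 h12 h13
    have d3 : pr a0 a1 h01 ≠ pr a3 a0 h03.symm := by
      rw [pr_comm a3 a0]; exact pr_ne_one _ _ _ _ _ h13
    have d4 : pr a1 a2 h12 ≠ pr a2 a3 h23 := by
      rw [pr_comm a1 a2]; exact pr_ne_one _ _ _ _ _ h13
    have d5 : pr a1 a2 h12 ≠ pr a3 a0 h03.symm :=
      pr_ne_zero _ _ _ _ _ _ h13 h01.symm h23 h02.symm
    have d6 : pr a2 a3 h23 ≠ pr a3 a0 h03.symm := by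
      rw [pr_comm a2 a3]; exact pr_ne_one _ _ _ _ _ h02.symm
    rw [hv]
    unfold vv
    by_cases e0 : s = pr a0 a1 h01
    · subst e0; simp [d1, d2, d3]
    · by_cases e1 : s = pr a1 a2 h12
      · subst e1; simp [d1.symm, d4, d5]
      · by_cases e2 : s = pr a2 a3 h23
        · subst e2; simp [d2.symm, d4.symm, d6]
        · by_cases e3 : s = pr a3 a0 h03.symm
          · subst e3; simp [d3.symm, d5.symm, d6.symm]
          · simp [e0, e1, e2, e3]
  have hbv : ∀ i, (bb1 n *ᵥ (fun p : X2 n × X2 n => v p.1 * v p.2)) i =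
      2 * ((if i = a0 then 1 else 0) + (if i = a1 then 1 else 0) + (if i = a2 then 1 else 0) +
        (if i = a3 then 1 else 0)) := by
    intro i
    have h1 : (bb1 n *ᵥ (fun p : X2 n × X2 n => v p.1 * v p.2)) i =
        ∑ s, NN n i s * (v s * v s) := by
      simp only [Matrix.mulVec, dotProduct, Fintype.sum_prod_type, bb1, Matrix.of_apply,
        ite_mul, zero_mul, Finset.sum_ite_eq, Finset.mem_univ, if_true]
    rw [h1]
    simp only [hvv, mul_add, mul_ite, mul_one, mul_zero, Finset.sum_add_distrib,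
      Finset.sum_ite_eq', Finset.mem_univ, if_true, NN_pr]
    split_ifs <;> ring
  obtain ⟨Q, hQ, hQc⟩ := exists_sub_proj' (hE2.kronecker hE2) (isProj_E1 (by omega))
    (isSchur_E1 (by omega)) (bb1 n) bb1_equiv (fun p => v p.1 * v p.2)
    (by
      rw [kronecker_mulVec_tensor, hv, E2_vv])
    (by
      apply E1_mulVec_ne_zero _ a0 a4
      rw [hbv, hbv]
      simp [h01, h02, h03, h04.symm, h14.symm, h24.symm, h34.symm])
  refine ⟨Q, hQ, fun g => ?_⟩
  rw [hQc, ch_kronecker, sq]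

/-- the trivial representation occurs in `V ⊗ std ⊗ std`. -/
theorem exists_Q2 (hn : 5 ≤ n) :
    ∃ Q : Matrix (X2 n × (Fin n × Fin n)) (X2 n × (Fin n × Fin n)) ℝ,
    IsProj (Equiv.Perm (Fin n)) Q ∧
      ∀ g : Equiv.Perm (Fin n), ch Q g = ch (E2 n) g * ch (E1 n) g ^ 2 - 1 := by
  obtain ⟨a0, a1, a2, a3, a4, h01, h02, h03, h04, h12, h13, h14, h23, h24, h34⟩ := five_points hn
  have hE2 : IsProj (Equiv.Perm (Fin n)) (E2 n) := isProj_E2 (by omega)
  have hE1 : IsProj (Equiv.Perm (Fin n)) (E1 n) := isProj_E1 (by omega)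
  set v := vv a0 a1 a2 a3 h01 h12 h23 h03.symm with hv
  have d1 : pr a0 a1 h01 ≠ pr a1 a2 h12 := by
    rw [pr_comm a0 a1]; exact pr_ne_one _ _ _ _ _ h02
  have d2 : pr a0 a1 h01 ≠ pr a2 a3 h23 := pr_ne_zero _ _ _ _ _ _ h02 h03 h12 h13
  have d3 : pr a0 a1 h01 ≠ pr a3 a0 h03.symm := by
    rw [pr_comm a3 a0]; exact pr_ne_one _ _ _ _ _ h13
  have d4 : pr a1 a2 h12 ≠ pr a2 a3 h23 := by
    rw [pr_comm a1 a2]; exact pr_ne_one _ _ _ _ _ h13
  have d5 : pr a1 a2 h12 ≠ pr a3 a0 h03.symm :=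
    pr_ne_zero _ _ _ _ _ _ h13 h01.symm h23 h02.symm
  have d6 : pr a2 a3 h23 ≠ pr a3 a0 h03.symm := by
    rw [pr_comm a2 a3]; exact pr_ne_one _ _ _ _ _ h02.symm
  have v01 : v (pr a0 a1 h01) = 1 := by simp [hv, vv, d1, d2, d3]
  have v12 : v (pr a1 a2 h12) = -1 := by simp [hv, vv, d1.symm, d4, d5]
  have v23 : v (pr a2 a3 h23) = 1 := by simp [hv, vv, d2.symm, d4.symm, d6]
  have v30 : v (pr a3 a0 h03.symm) = -1 := by simp [hv, vv, d3.symm, d5.symm, d6.symm]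
  let f : Fin n → ℝ := fun i => (if i = a0 then 1 else 0) - (if i = a2 then 1 else 0)
  let g : Fin n → ℝ := fun i => (if i = a1 then 1 else 0) - (if i = a3 then 1 else 0)
  have hf : ∑ i, f i = 0 := by simp [f]
  have hg : ∑ i, g i = 0 := by simp [g]
  let W : Fin n → Fin n → ℝ := fun i j => ∑ s : X2 n, (if s.1 = {i, j} then 1 else 0) * v s
  have hW : ∀ i j (h : i ≠ j), W i j = v (pr i j h) := by
    intro i j h
    simp only [W]
    rw [Finset.sum_eq_single (pr i j h)]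
    · simp [pr]
    · intro s _ hs
      have : ¬ s.1 = {i, j} := fun h' => hs (Subtype.ext h')
      simp [this]
    · intro h'
      exact absurd (Finset.mem_univ _) h'
  have hb : (bb2 n *ᵥ (fun p : X2 n × (Fin n × Fin n) => v p.1 * (fun q : Fin n × Fin n =>
      f q.1 * g q.2) p.2)) PUnit.unit = 4 := by
    have h1 : (bb2 n *ᵥ (fun p : X2 n × (Fin n × Fin n) => v p.1 * (fun q : Fin n × Fin n =>
      f q.1 * g q.2) p.2)) PUnit.unit = ∑ i, ∑ j, f i * (g j * W i j) := by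
      simp only [Matrix.mulVec, dotProduct, Fintype.sum_prod_type, bb2, Matrix.of_apply]
      rw [Finset.sum_comm]
      refine Finset.sum_congr rfl fun i _ => ?_
      rw [Finset.sum_comm]
      refine Finset.sum_congr rfl fun j _ => ?_
      simp only [W, Finset.mul_sum]
      refine Finset.sum_congr rfl fun s _ => ?_
      ring
    rw [h1]
    have h2 : ∀ i, ∑ j, f i * (g j * W i j) = f i * (W i a1 - W i a3) := by
      intro i
      rw [← Finset.mul_sum]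
      congr 1
      simp only [g, sub_mul, ite_mul, one_mul, zero_mul, Finset.sum_sub_distrib,
        Finset.sum_ite_eq', Finset.mem_univ, if_true]
    simp only [h2]
    have h3 : ∑ i, f i * (W i a1 - W i a3) = (W a0 a1 - W a0 a3) - (W a2 a1 - W a2 a3) := by
      simp only [f, sub_mul, ite_mul, one_mul, zero_mul, Finset.sum_sub_distrib,
        Finset.sum_ite_eq', Finset.mem_univ, if_true]
    rw [h3, hW a0 a1 h01, hW a0 a3 h03, hW a2 a1 h12.symm, hW a2 a3 h23, pr_comm a0 a3,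
      pr_comm a2 a1, v01, v12, v23, v30]
    norm_num
  obtain ⟨Q, hQ, hQc⟩ := exists_sub_proj' (hE2.kronecker (hE1.kronecker hE1))
    (isProj_unit (Equiv.Perm (Fin n))) (isSchur_unit _) (bb2 n) bb2_equiv
    (fun p => v p.1 * (fun q : Fin n × Fin n => f q.1 * g q.2) p.2)
    (by
      have h1 := kronecker_mulVec_tensor (E1 n) (E1 n) f g
      rw [E1_mulVec f hf, E1_mulVec g hg] at h1
      have h2 := kronecker_mulVec_tensor (E2 n) (E1 n ⊗ₖ E1 n) v
        (fun q : Fin n × Fin n => f q.1 * g q.2)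
      have h3 : E2 n *ᵥ v = v := by rw [hv, E2_vv]
      rw [h1, h3] at h2
      exact h2)
    (by
      rw [Matrix.one_mulVec]
      intro h
      have h1 := congrFun h PUnit.unit
      rw [hb] at h1
      norm_num at h1)
  refine ⟨Q, hQ, fun g => ?_⟩
  rw [hQc, ch_kronecker, ch_kronecker, sq, ch_unit]

end Pool.Agent.H3.HP
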